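import Pool.Agent.Helper52.Thin.Match

set_option autoImplicit false
set_option linter.unusedSectionVars false

namespace Pool.Agent.Helper52.Thin

open Finset Pool.Agent.Helper3.Thin

variable {q : ℕ → ℕ} [hqp : ∀ k, Fact (q k).Prime] {Γ : ∀ k, Finset (ZMod (q k) × ZMod (q k))}

/-- number of `n` with a `t`-matching -/
noncomputable def fc (Γ : ∀ k, Finset (ZMod (q k) × ZMod (q k))) {K : ℕ} (k : Fin K) (ε : Lab)
    (t : ℕ) (τ : Om q K) : Finset ℕ := by
  classical exact (range (1000 * q k ^ 4)).filter (fun n => Match Γ k ε t n τ)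

/-- number of `n` with a cherry -/
noncomputable def gc (Γ : ∀ k, Finset (ZMod (q k) × ZMod (q k))) {K : ℕ} (k : Fin K) (ε : Lab)
    (τ : Om q K) : Finset ℕ := by
  classical exact (range (1000 * q k ^ 4)).filter (fun n => Cher Γ k ε n τ)

lemma mem_fc {K : ℕ} {k : Fin K} {ε : Lab} {t n : ℕ} {τ : Om q K} :
    n ∈ fc Γ k ε t τ ↔ n < 1000 * q k ^ 4 ∧ Match Γ k ε t n τ := by
  classical
  unfold fc
  rw [mem_filter, mem_range]

lemma mem_gc {K : ℕ} {k : Fin K} {ε : Lab} {n : ℕ} {τ : Om q K} :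
    n ∈ gc Γ k ε τ ↔ n < 1000 * q k ^ 4 ∧ Cher Γ k ε n τ := by
  classical
  unfold gc
  rw [mem_filter, mem_range]

lemma fc_diff (hA : Adm q Γ) {K : ℕ} (k : Fin K) (ε : Lab) (t : ℕ) (c : Cell q K) (τ : Om q K)
    (z : Shift q c) :
    |((fc Γ k ε t (Function.update τ c z)).card : ℝ) - ((fc Γ k ε t τ).card : ℝ)| ≤
      (Dn Γ k c : ℝ) := by
  classical
  have h1 : (fc Γ k ε t τ \ fc Γ k ε t (Function.update τ c z)).card ≤ Dn Γ k c := by
    apply card_aff hA k ε c τ
    intro n hn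
    rw [mem_sdiff, mem_fc, mem_fc, not_and] at hn
    exact aff_of_match k ε t n τ c z hn.1.2 (hn.2 hn.1.1)
  have h2 : (fc Γ k ε t (Function.update τ c z) \ fc Γ k ε t τ).card ≤ Dn Γ k c := by
    apply card_aff hA k ε c (Function.update τ c z)
    intro n hn
    rw [mem_sdiff, mem_fc, mem_fc, not_and] at hn
    refine aff_of_match k ε t n _ c (τ c) hn.1.2 ?_
    rw [Function.update_idem, Function.update_eq_self]
    exact hn.2 hn.1.1
  have h3 := card_le_card_sdiff_add_card (s := fc Γ k ε t τ)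
    (t := fc Γ k ε t (Function.update τ c z))
  have h4 := card_le_card_sdiff_add_card (t := fc Γ k ε t τ)
    (s := fc Γ k ε t (Function.update τ c z))
  rw [abs_le]
  constructor
  · have : (fc Γ k ε t τ).card ≤ Dn Γ k c + (fc Γ k ε t (Function.update τ c z)).card := by omega
    have h5 : ((fc Γ k ε t τ).card : ℝ) ≤ (Dn Γ k c : ℝ) +
      ((fc Γ k ε t (Function.update τ c z)).card : ℝ) := by exact_mod_cast this
    linarith
  · have : (fc Γ k ε t (Function.update τ c z)).card ≤ Dn Γ k c + (fc Γ k ε t τ).card := by omega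
    have h5 : ((fc Γ k ε t (Function.update τ c z)).card : ℝ) ≤ (Dn Γ k c : ℝ) +
      ((fc Γ k ε t τ).card : ℝ) := by exact_mod_cast this
    linarith

lemma sum_Dn (hA : Adm q Γ) {K : ℕ} (k : Fin K) :
    ∑ c : Cell q K, Dn Γ k c ^ 2 ≤ 4374 * q k ^ 7 := by
  classical
  have h1 : ∑ c : Cell q K, Dn Γ k c ^ 2 =
      ∑ j : Fin K, ∑ u : ZMod (q j) × ZMod (q j), Dn Γ k (⟨j, u⟩ : Cell q K) ^ 2 :=
    Fintype.sum_sigma _
  have h2 : ∀ j : Fin K, ∑ u : ZMod (q j) × ZMod (q j), Dn Γ k (⟨j, u⟩ : Cell q K) ^ 2 ≤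
      if j ≤ k then 2187 * q k ^ 4 * q j ^ 3 else 0 := by
    intro j
    split_ifs with hj
    · have h3 : ∀ u : ZMod (q j) × ZMod (q j), Dn Γ k (⟨j, u⟩ : Cell q K) ^ 2 =
          if u ∈ Γ j then (27 * q j * q k ^ 2) ^ 2 else 0 := by
        intro u
        unfold Dn
        by_cases hu : u ∈ Γ j
        · rw [if_pos ⟨hj, hu⟩, if_pos hu]
        · rw [if_neg (fun h => hu h.2), if_neg hu]
          norm_num
      rw [Finset.sum_congr rfl (fun u _ => h3 u), ← Finset.sum_filter, Finset.sum_const,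
        smul_eq_mul]
      have h4 : (univ.filter (fun u => u ∈ Γ j)).card ≤ 3 * q j := by
        have := (hA.good j).card_le
        rw [ZMod.card] at this
        rwa [filter_mem_eq_inter, univ_inter]
      calc _ ≤ (3 * q j) * (27 * q j * q k ^ 2) ^ 2 := Nat.mul_le_mul_right _ h4
        _ = _ := by ring
    · rw [Finset.sum_eq_zero]
      intro u _
      unfold Dn
      rw [if_neg (fun h => hj h.1)]
      norm_num
  rw [h1]
  refine (sum_le_sum (fun j _ => h2 j)).trans ?_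
  rw [← Finset.sum_filter, ← mul_sum]
  have h5 : ∑ j ∈ univ.filter (fun j : Fin K => j ≤ k), q j ^ 3 ≤ 2 * q k ^ 3 := by
    have h6 : univ.filter (fun j : Fin K => j ≤ k) =
        insert k (univ.filter (fun j : Fin K => j < k)) := by
      ext j
      simp only [mem_filter, mem_univ, true_and, mem_insert]
      exact le_iff_eq_or_lt
    rw [h6, sum_insert (by simp), sum_fin_lt k (fun j => q j ^ 3)]
    have := sum_cube_le hA k
    omega
  calc _ ≤ 2187 * q k ^ 4 * (2 * q k ^ 3) := Nat.mul_le_mul_left _ h5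
    _ = _ := by ring

/-- total count of matchings -/
lemma sum_fc (hA : Adm q Γ) {K : ℕ} (k : Fin K) (ε : Lab) (t : ℕ) :
    ∑ τ : Om q K, ((fc Γ k ε t τ).card : ℝ) ≤
      1000 * (q k : ℝ) ^ 4 * (243 ^ t / (t.factorial : ℝ)) * (Fintype.card (Om q K) : ℝ) := by
  classical
  have h0 : (0 : ℝ) < (t.factorial : ℝ) := by exact_mod_cast t.factorial_pos
  have h1 : ∑ τ : Om q K, ((fc Γ k ε t τ).card : ℝ) =
      ∑ n ∈ range (1000 * q k ^ 4), ((univ.filter (fun τ : Om q K => Match Γ k ε t n τ)).card : ℝ) := by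
    have e1 : ∀ τ : Om q K, ((fc Γ k ε t τ).card : ℝ) =
        ∑ n ∈ range (1000 * q k ^ 4), if Match Γ k ε t n τ then (1 : ℝ) else 0 := by
      intro τ
      unfold fc
      rw [card_filter]
      push_cast
      rfl
    rw [Finset.sum_congr rfl (fun τ _ => e1 τ), sum_comm]
    refine Finset.sum_congr rfl (fun n _ => ?_)
    rw [card_filter]
    push_cast
    rfl
  rw [h1]
  have h2 : ∀ n ∈ range (1000 * q k ^ 4),
      ((univ.filter (fun τ : Om q K => Match Γ k ε t n τ)).card : ℝ) ≤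
      (243 ^ t / (t.factorial : ℝ)) * (Fintype.card (Om q K) : ℝ) := by
    intro n _
    have := match_prob hA k ε t n (univ.filter (fun τ : Om q K => Match Γ k ε t n τ))
      (fun τ hτ => (mem_filter.1 hτ).2)
    rw [div_mul_eq_mul_div, le_div_iff₀ h0]
    exact this
  refine (sum_le_sum h2).trans ?_
  rw [sum_const, card_range, nsmul_eq_mul]
  push_cast
  exact le_of_eq (by ring)

lemma sum_gc (hA : Adm q Γ) {K : ℕ} (k : Fin K) (ε : Lab) :
    ∑ τ : Om q K, ((gc Γ k ε τ).card : ℝ) ≤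
      100000000 * (q k : ℝ) ^ 3 * (Fintype.card (Om q K) : ℝ) := by
  classical
  have hk := qpos (q := q) k
  have h1 : ∑ τ : Om q K, ((gc Γ k ε τ).card : ℝ) =
      ∑ n ∈ range (1000 * q k ^ 4), ((univ.filter (fun τ : Om q K => Cher Γ k ε n τ)).card : ℝ) := by
    have e1 : ∀ τ : Om q K, ((gc Γ k ε τ).card : ℝ) =
        ∑ n ∈ range (1000 * q k ^ 4), if Cher Γ k ε n τ then (1 : ℝ) else 0 := by
      intro τ
      unfold gc
      rw [card_filter]
      push_cast
      rfl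
    rw [Finset.sum_congr rfl (fun τ _ => e1 τ), sum_comm]
    refine Finset.sum_congr rfl (fun n _ => ?_)
    rw [card_filter]
    push_cast
    rfl
  rw [h1]
  have h2 : ∀ n ∈ range (1000 * q k ^ 4),
      ((univ.filter (fun τ : Om q K => Cher Γ k ε n τ)).card : ℝ) ≤
      (100000 / (q k : ℝ)) * (Fintype.card (Om q K) : ℝ) := by
    intro n _
    exact cher_prob hA k ε n (univ.filter (fun τ : Om q K => Cher Γ k ε n τ))
      (fun τ hτ => (mem_filter.1 hτ).2)
  refine (sum_le_sum h2).trans ?_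
  rw [sum_const, card_range, nsmul_eq_mul]
  push_cast
  apply le_of_eq
  field_simp
  ring

/-- failure count for the matchings -/
lemma fail_fc (hA : Adm q Γ) {K : ℕ} (k : Fin K) (ε : Lab) (t : ℕ) (s : ℝ) (hs : 0 < s)
    (B : Finset (Om q K))
    (hB : ∀ τ ∈ B, 1000 * (q k : ℝ) ^ 4 * (243 ^ t / (t.factorial : ℝ)) + s ≤
      ((fc Γ k ε t τ).card : ℝ)) :
    (B.card : ℝ) ≤ (Fintype.card (Om q K) : ℝ) * (4374 * (q k : ℝ) ^ 7 / s ^ 2) := by
  have h1 := es_tail (fun τ : Om q K => ((fc Γ k ε t τ).card : ℝ)) (fun c => (Dn Γ k c : ℝ))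
    (fun c τ z => fc_diff hA k ε t c τ z)
    (1000 * (q k : ℝ) ^ 4 * (243 ^ t / (t.factorial : ℝ))) s hs.le (sum_fc hA k ε t) B hB
  have h2 : ∑ c : Cell q K, (Dn Γ k c : ℝ) ^ 2 ≤ 4374 * (q k : ℝ) ^ 7 := by
    exact_mod_cast sum_Dn hA k
  rw [← mul_div_assoc, le_div_iff₀ (by positivity)]
  refine h1.trans ?_
  exact mul_le_mul_of_nonneg_left h2 (by positivity)

/-- failure count for the cherries -/
lemma fail_gc (hA : Adm q Γ) {K : ℕ} (k : Fin K) (ε : Lab) (s : ℝ) (hs : 0 < s)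
    (B : Finset (Om q K)) (hB : ∀ τ ∈ B, s ≤ ((gc Γ k ε τ).card : ℝ)) :
    (B.card : ℝ) ≤ (Fintype.card (Om q K) : ℝ) * (100000000 * (q k : ℝ) ^ 3 / s) := by
  classical
  have h1 := sum_gc hA k ε
  rw [← mul_div_assoc, le_div_iff₀ hs]
  calc (B.card : ℝ) * s = ∑ τ ∈ B, s := by rw [sum_const, nsmul_eq_mul]
    _ ≤ ∑ τ ∈ B, ((gc Γ k ε τ).card : ℝ) := sum_le_sum hB
    _ ≤ ∑ τ : Om q K, ((gc Γ k ε τ).card : ℝ) :=
        sum_le_sum_of_subset_of_nonneg (subset_univ _) (fun _ _ _ => by positivity)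
    _ ≤ _ := h1
    _ = _ := by ring

end Pool.Agent.Helper52.Thin
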