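import Mathlib

/-!
The bounded differences (Efron-Stein) second moment inequality in a finite product.
-/

set_option autoImplicit false

namespace Pool.Agent.Helper52.Thin

open Finset

section ES

variable {ι : Type*} [Fintype ι] [DecidableEq ι] {Z : ι → Type*} [∀ i, Fintype (Z i)]
  [∀ i, Nonempty (Z i)]

/-- average over one coordinate -/
noncomputable def avg (i : ι) (f : ((i : ι) → Z i) → ℝ) : ((i : ι) → Z i) → ℝ :=
  fun ω => (∑ z : Z i, f (Function.update ω i z)) / (Fintype.card (Z i) : ℝ)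

omit [Fintype ι] in
theorem avg_update (i : ι) (f : ((i : ι) → Z i) → ℝ) (ω : (i : ι) → Z i) (z : Z i) :
    avg i f (Function.update ω i z) = avg i f ω := by
  simp only [avg, Function.update_idem]

omit [Fintype ι] in
theorem avg_mul (i : ι) (f g : ((i : ι) → Z i) → ℝ)
    (hg : ∀ ω z, g (Function.update ω i z) = g ω) (ω : (i : ι) → Z i) :
    avg i (fun ω => f ω * g ω) ω = avg i f ω * g ω := by
  simp only [avg, hg, ← Finset.sum_mul]
  ring

theorem sum_update (i : ι) (f : ((i : ι) → Z i) → ℝ) :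
    ∑ ω : (i : ι) → Z i, ∑ z : Z i, f (Function.update ω i z) =
      (Fintype.card (Z i) : ℝ) * ∑ ω : (i : ι) → Z i, f ω := by
  classical
  rw [← Fintype.sum_prod_type' (f := fun ω z => f (Function.update ω i z))]
  have h1 : ∑ x : ((i : ι) → Z i) × Z i, f (Function.update x.1 i x.2) =
      ∑ x : ((i : ι) → Z i) × Z i, f x.1 := by
    apply Finset.sum_nbij' (fun x => (Function.update x.1 i x.2, x.1 i))
      (fun x => (Function.update x.1 i x.2, x.1 i))
    · simp
    · simp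
    · rintro ⟨ω, z⟩ _
      simp
    · rintro ⟨ω, z⟩ _
      simp
    · rintro ⟨ω, z⟩ _
      rfl
  rw [h1, Fintype.sum_prod_type]
  simp only [sum_const, card_univ, nsmul_eq_mul, mul_sum]

theorem sum_avg (i : ι) (f : ((i : ι) → Z i) → ℝ) :
    ∑ ω : (i : ι) → Z i, avg i f ω = ∑ ω : (i : ι) → Z i, f ω := by
  have hc : (Fintype.card (Z i) : ℝ) ≠ 0 := by exact_mod_cast Fintype.card_ne_zero
  simp only [avg]
  rw [← Finset.sum_div, sum_update, mul_div_cancel_left₀ _ hc]

theorem pyth (i : ι) (f : ((i : ι) → Z i) → ℝ) :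
    ∑ ω : (i : ι) → Z i, f ω ^ 2 = ∑ ω : (i : ι) → Z i, (f ω - avg i f ω) ^ 2 +
      ∑ ω : (i : ι) → Z i, avg i f ω ^ 2 := by
  have h1 : ∑ ω : (i : ι) → Z i, f ω * avg i f ω = ∑ ω : (i : ι) → Z i, avg i f ω ^ 2 := by
    rw [← sum_avg i (fun ω => f ω * avg i f ω)]
    refine Finset.sum_congr rfl fun ω _ => ?_
    rw [avg_mul i f _ (fun ω z => avg_update i f ω z)]
    ring
  have h2 : ∑ ω : (i : ι) → Z i, (f ω - avg i f ω) ^ 2 = ∑ ω : (i : ι) → Z i, f ω ^ 2 -
      2 * ∑ ω : (i : ι) → Z i, f ω * avg i f ω + ∑ ω : (i : ι) → Z i, avg i f ω ^ 2 := by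
    rw [mul_sum, ← Finset.sum_sub_distrib, ← Finset.sum_add_distrib]
    refine Finset.sum_congr rfl fun ω _ => ?_
    ring
  rw [h2, h1]
  ring

omit [Fintype ι] in
theorem abs_sub_avg (i : ι) (f : ((i : ι) → Z i) → ℝ) (D : ℝ)
    (hD : ∀ ω z, |f (Function.update ω i z) - f ω| ≤ D) (ω : (i : ι) → Z i) :
    |f ω - avg i f ω| ≤ D := by
  have hc : (0 : ℝ) < (Fintype.card (Z i) : ℝ) := by exact_mod_cast Fintype.card_pos
  have h1 : f ω - avg i f ω = (∑ z : Z i, (f ω - f (Function.update ω i z))) /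
      (Fintype.card (Z i) : ℝ) := by
    simp only [avg]
    rw [Finset.sum_sub_distrib, sum_const, card_univ, nsmul_eq_mul]
    field_simp
  rw [h1, abs_div, abs_of_pos hc, div_le_iff₀ hc]
  refine (Finset.abs_sum_le_sum_abs _ _).trans ?_
  calc ∑ z : Z i, |f ω - f (Function.update ω i z)| ≤ ∑ _z : Z i, D :=
        Finset.sum_le_sum fun z _ => by rw [abs_sub_comm]; exact hD ω z
    _ = D * (Fintype.card (Z i) : ℝ) := by
        rw [sum_const, card_univ, nsmul_eq_mul]; ring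

omit [Fintype ι] in
theorem avg_diff (i j : ι) (f : ((i : ι) → Z i) → ℝ) (D : ℝ)
    (hD : ∀ ω z, |f (Function.update ω j z) - f ω| ≤ D) (ω : (i : ι) → Z i) (z : Z j) :
    |avg i f (Function.update ω j z) - avg i f ω| ≤ D := by
  have hD0 : 0 ≤ D := (abs_nonneg _).trans (hD ω z)
  have hc : (0 : ℝ) < (Fintype.card (Z i) : ℝ) := by exact_mod_cast Fintype.card_pos
  by_cases hij : j = i
  · subst hij
    rw [avg_update, sub_self, abs_zero]
    exact hD0
  · simp only [avg]
    rw [← sub_div, ← Finset.sum_sub_distrib, abs_div, abs_of_pos hc, div_le_iff₀ hc]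
    refine (Finset.abs_sum_le_sum_abs _ _).trans ?_
    calc ∑ z' : Z i, |f (Function.update (Function.update ω j z) i z') -
          f (Function.update ω i z')| ≤ ∑ _z : Z i, D := by
          refine Finset.sum_le_sum fun z' _ => ?_
          rw [Function.update_comm hij]
          exact hD _ _
      _ = D * (Fintype.card (Z i) : ℝ) := by
          rw [sum_const, card_univ, nsmul_eq_mul]; ring

theorem es_aux (f : ((i : ι) → Z i) → ℝ) (D : ι → ℝ)
    (hD : ∀ i ω z, |f (Function.update ω i z) - f ω| ≤ D i) (S : Finset ι) :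
    ∃ g : ((i : ι) → Z i) → ℝ, (∀ i ω z, |g (Function.update ω i z) - g ω| ≤ D i) ∧
      (∀ i ∈ S, ∀ ω z, g (Function.update ω i z) = g ω) ∧
      ∑ ω : (i : ι) → Z i, g ω = ∑ ω : (i : ι) → Z i, f ω ∧
      ∑ ω : (i : ι) → Z i, f ω ^ 2 ≤ ∑ ω : (i : ι) → Z i, g ω ^ 2 +
        (Fintype.card ((i : ι) → Z i) : ℝ) * ∑ i ∈ S, D i ^ 2 := by
  classical
  induction S using Finset.induction_on with
  | empty => exact ⟨f, hD, by simp, rfl, by simp⟩
  | insert a S ha ih =>
    obtain ⟨g, h1, h2, h3, h4⟩ := ih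
    refine ⟨avg a g, ?_, ?_, ?_, ?_⟩
    · intro i ω z
      exact avg_diff a i g (D i) (h1 i) ω z
    · intro i hi ω z
      rcases Finset.mem_insert.1 hi with rfl | hi
      · exact avg_update i g ω z
      · have := avg_diff a i g 0 (fun ω z => by rw [h2 i hi ω z]; simp) ω z
        have h5 := abs_nonpos_iff.1 this
        linarith
    · rw [sum_avg, h3]
    · refine h4.trans ?_
      rw [pyth a g, Finset.sum_insert ha]
      have h5 : ∑ ω : (i : ι) → Z i, (g ω - avg a g ω) ^ 2 ≤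
          (Fintype.card ((i : ι) → Z i) : ℝ) * D a ^ 2 := by
        calc ∑ ω : (i : ι) → Z i, (g ω - avg a g ω) ^ 2 ≤ ∑ _ω : (i : ι) → Z i, D a ^ 2 := by
              refine Finset.sum_le_sum fun ω _ => ?_
              have := abs_sub_avg a g (D a) (h1 a) ω
              rw [← sq_abs]
              exact pow_le_pow_left₀ (abs_nonneg _) this 2
          _ = _ := by rw [sum_const, card_univ, nsmul_eq_mul]
      linarith

theorem const_of_invariant (g : ((i : ι) → Z i) → ℝ)
    (hg : ∀ i, ∀ ω z, g (Function.update ω i z) = g ω) (ω ω' : (i : ι) → Z i) : g ω = g ω' := by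
  classical
  have h : ∀ S : Finset ι, g (fun i => if i ∈ S then ω' i else ω i) = g ω := by
    intro S
    induction S using Finset.induction_on with
    | empty => simp
    | insert a S ha ih =>
      rw [← ih, ← hg a (fun i => if i ∈ S then ω' i else ω i) (ω' a)]
      congr 1
      ext i
      by_cases hia : i = a
      · subst hia
        simp
      · simp [Function.update_of_ne hia, Finset.mem_insert, hia]
  have := h univ
  simpa using this.symm

/-- Efron-Stein with bounded differences. -/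
theorem efron_stein (f : ((i : ι) → Z i) → ℝ) (D : ι → ℝ)
    (hD : ∀ i ω z, |f (Function.update ω i z) - f ω| ≤ D i) :
    ∑ ω : (i : ι) → Z i, (f ω - (∑ ω : (i : ι) → Z i, f ω) /
      (Fintype.card ((i : ι) → Z i) : ℝ)) ^ 2 ≤
      (Fintype.card ((i : ι) → Z i) : ℝ) * ∑ i, D i ^ 2 := by
  classical
  obtain ⟨g, -, h2, h3, h4⟩ := es_aux f D hD univ
  set N : ℝ := (Fintype.card ((i : ι) → Z i) : ℝ) with hN
  have hN0 : 0 < N := by
    rw [hN]
    exact_mod_cast Fintype.card_pos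
  have hc := const_of_invariant g (fun i => h2 i (Finset.mem_univ i))
  obtain ⟨ω0⟩ : Nonempty ((i : ι) → Z i) := inferInstance
  have hg : ∀ ω, g ω = g ω0 := fun ω => hc ω ω0
  have e1 : ∑ ω : (i : ι) → Z i, g ω = N * g ω0 := by
    rw [Finset.sum_congr rfl fun ω _ => hg ω, sum_const, card_univ, nsmul_eq_mul]
  have e2 : ∑ ω : (i : ι) → Z i, g ω ^ 2 = N * g ω0 ^ 2 := by
    rw [Finset.sum_congr rfl fun ω _ => by rw [hg ω], sum_const, card_univ, nsmul_eq_mul]
  rw [← h3, e1, mul_div_cancel_left₀ _ hN0.ne']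
  have e3 : ∑ ω : (i : ι) → Z i, (f ω - g ω0) ^ 2 = ∑ ω : (i : ι) → Z i, f ω ^ 2 -
      2 * g ω0 * ∑ ω : (i : ι) → Z i, f ω + N * g ω0 ^ 2 := by
    rw [mul_sum, ← Finset.sum_sub_distrib]
    have : N * g ω0 ^ 2 = ∑ _ω : (i : ι) → Z i, g ω0 ^ 2 := by
      rw [sum_const, card_univ, nsmul_eq_mul]
    rw [this, ← Finset.sum_add_distrib]
    refine Finset.sum_congr rfl fun ω _ => ?_
    ring
  rw [e3, ← h3, e1]
  rw [e2] at h4
  nlinarith

/-- Chebyshev form. -/
theorem es_tail (f : ((i : ι) → Z i) → ℝ) (D : ι → ℝ)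
    (hD : ∀ i ω z, |f (Function.update ω i z) - f ω| ≤ D i) (m s : ℝ) (hs : 0 ≤ s)
    (hm : ∑ ω : (i : ι) → Z i, f ω ≤ m * (Fintype.card ((i : ι) → Z i) : ℝ))
    (Bad : Finset ((i : ι) → Z i)) (hBad : ∀ ω ∈ Bad, m + s ≤ f ω) :
    (Bad.card : ℝ) * s ^ 2 ≤ (Fintype.card ((i : ι) → Z i) : ℝ) * ∑ i, D i ^ 2 := by
  classical
  refine le_trans ?_ (efron_stein f D hD)
  have hN0 : (0 : ℝ) < (Fintype.card ((i : ι) → Z i) : ℝ) := by exact_mod_cast Fintype.card_pos
  set M : ℝ := (∑ ω : (i : ι) → Z i, f ω) / (Fintype.card ((i : ι) → Z i) : ℝ) with hM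
  have hMm : M ≤ m := by
    rw [hM, div_le_iff₀ hN0]
    exact hm
  calc (Bad.card : ℝ) * s ^ 2 = ∑ _ω ∈ Bad, s ^ 2 := by rw [sum_const, nsmul_eq_mul]
    _ ≤ ∑ ω ∈ Bad, (f ω - M) ^ 2 := by
        refine Finset.sum_le_sum fun ω hω => ?_
        have := hBad ω hω
        exact pow_le_pow_left₀ hs (by linarith) 2
    _ ≤ _ := Finset.sum_le_sum_of_subset_of_nonneg (Finset.subset_univ _)
        fun _ _ _ => sq_nonneg _

end ES

end Pool.Agent.Helper52.Thin
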