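import Pool.Agent.Helper52.Thin.Count

set_option autoImplicit false
set_option linter.unusedSectionVars false

namespace Pool.Agent.Helper52.Thin

open Finset Pool.Agent.Helper3.Thin

variable {q : ℕ → ℕ} [hqp : ∀ k, Fact (q k).Prime] {Γ : ∀ k, Finset (ZMod (q k) × ZMod (q k))}

/-- the fourth root of the scale parameter -/
noncomputable def rt (q : ℕ → ℕ) (k : ℕ) : ℝ := Real.sqrt (Real.sqrt (q k : ℝ))

lemma rt_pos (k : ℕ) : 0 < rt q k := by
  unfold rt
  have := qpos (q := q) k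
  positivity

lemma rt_pow (k : ℕ) : rt q k ^ 4 = (q k : ℝ) := by
  unfold rt
  have h1 : (0 : ℝ) ≤ q k := Nat.cast_nonneg _
  calc (Real.sqrt (Real.sqrt (q k : ℝ))) ^ 4 = ((Real.sqrt (Real.sqrt (q k : ℝ))) ^ 2) ^ 2 := by
        ring
    _ = (Real.sqrt (q k : ℝ)) ^ 2 := by rw [Real.sq_sqrt (Real.sqrt_nonneg _)]
    _ = _ := Real.sq_sqrt h1

lemma rt_ge (hA : Adm q Γ) (k : ℕ) : (20 / 17 : ℝ) ^ k * rt q 0 ≤ rt q k := by
  have h0 := rt_pos (q := q) 0
  have hk := rt_pos (q := q) k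
  have h1 : ((20 / 17 : ℝ) ^ k * rt q 0) ^ 4 ≤ rt q k ^ 4 := by
    rw [rt_pow, mul_pow, rt_pow, ← pow_mul, mul_comm k 4, pow_mul]
    have h2 : ((2 : ℝ)) ^ k * (q 0 : ℝ) ≤ q k := by exact_mod_cast hA.pow_le k
    refine le_trans ?_ h2
    have h3 : (0 : ℝ) ≤ q 0 := Nat.cast_nonneg _
    apply mul_le_mul_of_nonneg_right _ h3
    apply pow_le_pow_left₀ (by positivity)
    norm_num
  exact (pow_le_pow_iff_left₀ (by positivity) hk.le (by norm_num)).1 h1

lemma geo (K : ℕ) : ∑ k ∈ range K, (17 / 20 : ℝ) ^ k ≤ 20 / 3 := by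
  have h : ∀ K : ℕ, ∑ k ∈ range K, (17 / 20 : ℝ) ^ k = 20 / 3 - 20 / 3 * (17 / 20 : ℝ) ^ K := by
    intro K
    induction K with
    | zero => simp
    | succ n ih =>
      rw [sum_range_succ, ih, pow_succ]
      ring
  rw [h]
  have : (0 : ℝ) < (17 / 20 : ℝ) ^ K := by positivity
  linarith

lemma geo4 (K : ℕ) : ∑ k : Fin K, (1 / 4 : ℝ) ^ ((k : ℕ) + 1) ≤ 1 / 3 := by
  have h : ∀ K : ℕ, ∑ k ∈ range K, (1 / 4 : ℝ) ^ (k + 1) = 1 / 3 - 1 / 3 * (1 / 4 : ℝ) ^ K := by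
    intro K
    induction K with
    | zero => simp
    | succ n ih =>
      rw [sum_range_succ, ih, pow_succ]
      ring
  rw [Fin.sum_univ_eq_sum_range (fun k => (1 / 4 : ℝ) ^ (k + 1)) K, h]
  have : (0 : ℝ) < (1 / 4 : ℝ) ^ K := by positivity
  linarith

/-- the shifts that are not fine -/
lemma fine_fail (hA : Adm q Γ) (hbig : 10 ^ 15 ≤ q 0) (M : ℕ → ℕ)
    (hM : ∀ k, 243 ^ (M k) * (q k) ^ 8 ≤ (M k).factorial) (K : ℕ) (B : Finset (Om q K))
    (hB : ∀ τ ∈ B, ∃ k : Fin K, ∃ n < 1000 * q k ^ 4, ∃ ε : Lab,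
      ¬ Fine Γ k (targ q n ε) (M k) 7 τ) :
    (B.card : ℝ) ≤ (Fintype.card (Om q K) : ℝ) * (1 / 3) := by
  classical
  set Bad : Fin K → ℕ → Lab → Finset (Om q K) := fun k n ε =>
    univ.filter (fun τ => ¬ Fine Γ k (targ q n ε) (M k) 7 τ) with hBad
  have hcover : B ⊆ univ.biUnion (fun k : Fin K =>
      (range (1000 * q k ^ 4)).biUnion (fun n => univ.biUnion (fun ε : Lab => Bad k n ε))) := by
    intro τ hτ
    obtain ⟨k, n, hn, ε, hf⟩ := hB τ hτ
    rw [mem_biUnion]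
    refine ⟨k, mem_univ _, ?_⟩
    rw [mem_biUnion]
    refine ⟨n, mem_range.2 hn, ?_⟩
    rw [mem_biUnion]
    refine ⟨ε, mem_univ _, ?_⟩
    rw [hBad]
    simp only
    rw [mem_filter]
    exact ⟨mem_univ _, hf⟩
  set C : ℝ := (Fintype.card (Om q K) : ℝ) with hC
  have hC0 : 0 < C := by
    rw [hC]
    exact_mod_cast Fintype.card_pos
  have hterm : ∀ k : Fin K, (((range (1000 * q k ^ 4)).biUnion
      (fun n => univ.biUnion (fun ε : Lab => Bad k n ε))).card : ℝ)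
      ≤ C * (1 / 4 : ℝ) ^ ((k : ℕ) + 1) := by
    intro k
    set P : ℝ := (243 : ℝ) ^ (M k) / ((M k).factorial : ℝ) with hP
    have hP0 : 0 ≤ P := by positivity
    have hfac : (0 : ℝ) < ((M k).factorial : ℝ) := by exact_mod_cast (M k).factorial_pos
    have hP1 : P * (q k : ℝ) ^ 8 ≤ 1 := by
      rw [hP, div_mul_eq_mul_div, div_le_one hfac]
      exact_mod_cast hM k
    have hx : (2 : ℝ) ^ (k : ℕ) * 10 ^ 15 ≤ (q k : ℝ) := by
      have h1 := hA.pow_le k
      have h2 : 2 ^ (k : ℕ) * 10 ^ 15 ≤ q k := (Nat.mul_le_mul_left _ hbig).trans h1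
      exact_mod_cast h2
    have hb : ∀ n ε, ((Bad k n ε).card : ℝ) ≤ C * ((1 + 2 * (q k : ℝ) ^ 2) * P +
        (100000 / (q k : ℝ)) ^ 7) := by
      intro n ε
      apply bad_count hA k (targ q n ε) (M k) 7 (Bad k n ε)
      intro τ hτ
      rw [hBad] at hτ
      simp only at hτ
      rw [mem_filter] at hτ
      exact hτ.2
    calc (((range (1000 * q k ^ 4)).biUnion
        (fun n => univ.biUnion (fun ε : Lab => Bad k n ε))).card : ℝ)
        ≤ ((∑ n ∈ range (1000 * q k ^ 4), ∑ ε : Lab, (Bad k n ε).card : ℕ) : ℝ) := by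
          have : ((range (1000 * q k ^ 4)).biUnion
            (fun n => univ.biUnion (fun ε : Lab => Bad k n ε))).card ≤
            ∑ n ∈ range (1000 * q k ^ 4), ∑ ε : Lab, (Bad k n ε).card := by
            refine card_biUnion_le.trans (sum_le_sum (fun n _ => card_biUnion_le))
          exact_mod_cast this
      _ = ∑ n ∈ range (1000 * q k ^ 4), ∑ ε : Lab, ((Bad k n ε).card : ℝ) := by push_cast; rfl
      _ ≤ ∑ n ∈ range (1000 * q k ^ 4), ∑ ε : Lab, C * ((1 + 2 * (q k : ℝ) ^ 2) * P +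
        (100000 / (q k : ℝ)) ^ 7) := sum_le_sum (fun n _ => sum_le_sum (fun ε _ => hb n ε))
      _ = C * ((1000 * (q k : ℝ) ^ 4 * 4096) * ((1 + 2 * (q k : ℝ) ^ 2) * P +
        (100000 / (q k : ℝ)) ^ 7)) := by
          rw [sum_const, sum_const, card_univ, card_Lab, card_range, nsmul_eq_mul, nsmul_eq_mul]
          push_cast
          ring
      _ ≤ C * (1 / 4 : ℝ) ^ ((k : ℕ) + 1) :=
          mul_le_mul_of_nonneg_left (term_bound _ k hx P hP0 hP1) hC0.le
  calc (B.card : ℝ) ≤ ((∑ k : Fin K, ((range (1000 * q k ^ 4)).biUnion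
          (fun n => univ.biUnion (fun ε : Lab => Bad k n ε))).card : ℕ) : ℝ) := by
          exact_mod_cast (card_le_card hcover).trans card_biUnion_le
      _ = ∑ k : Fin K, (((range (1000 * q k ^ 4)).biUnion
          (fun n => univ.biUnion (fun ε : Lab => Bad k n ε))).card : ℝ) := by push_cast; rfl
      _ ≤ ∑ k : Fin K, C * (1 / 4 : ℝ) ^ ((k : ℕ) + 1) := sum_le_sum (fun k _ => hterm k)
      _ ≤ _ := by
        rw [← mul_sum]
        exact mul_le_mul_of_nonneg_left (geo4 K) hC0.le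

/-- the shifts with too many matchings or cherries -/
lemma count_fail (hA : Adm q Γ) (hbig : 10 ^ 52 ≤ q 0) (M : ℕ → ℕ)
    (hM : ∀ k, (M k : ℝ) + 1 ≤ rt q k) (K : ℕ) (B : Finset (Om q K))
    (hB : ∀ τ ∈ B, ∃ k : Fin K, ∃ ε : Lab,
      (∃ t ≤ M k, 1000 * (q k : ℝ) ^ 4 * (243 ^ t / (t.factorial : ℝ)) + rt q k ^ 15 ≤
        ((fc Γ k ε t τ).card : ℝ)) ∨ rt q k ^ 15 ≤ ((gc Γ k ε τ).card : ℝ)) :
    (B.card : ℝ) ≤ (Fintype.card (Om q K) : ℝ) * (1 / 2) := by
  classical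
  set B1 : Fin K → Lab → ℕ → Finset (Om q K) := fun k ε t => univ.filter (fun τ =>
    1000 * (q k : ℝ) ^ 4 * (243 ^ t / (t.factorial : ℝ)) + rt q k ^ 15 ≤
        ((fc Γ k ε t τ).card : ℝ)) with hB1
  set B2 : Fin K → Lab → Finset (Om q K) := fun k ε => univ.filter (fun τ =>
    rt q k ^ 15 ≤ ((gc Γ k ε τ).card : ℝ)) with hB2
  have hcover : B ⊆ univ.biUnion (fun k : Fin K => univ.biUnion (fun ε : Lab =>
      ((range (M k + 1)).biUnion (fun t => B1 k ε t)) ∪ B2 k ε)) := by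
    intro τ hτ
    obtain ⟨k, ε, h⟩ := hB τ hτ
    rw [mem_biUnion]
    refine ⟨k, mem_univ _, ?_⟩
    rw [mem_biUnion]
    refine ⟨ε, mem_univ _, ?_⟩
    rw [mem_union, mem_biUnion]
    rcases h with ⟨t, ht, h⟩ | h
    · left
      refine ⟨t, by rw [mem_range]; omega, ?_⟩
      rw [hB1]
      simp only
      rw [mem_filter]
      exact ⟨mem_univ _, h⟩
    · right
      rw [hB2]
      simp only
      rw [mem_filter]
      exact ⟨mem_univ _, h⟩
  set C : ℝ := (Fintype.card (Om q K) : ℝ) with hC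
  have hC0 : 0 < C := by
    rw [hC]
    exact_mod_cast Fintype.card_pos
  have h13 : (10 : ℝ) ^ 13 ≤ rt q 0 := by
    have h1 : ((10 : ℝ) ^ 13) ^ 4 ≤ rt q 0 ^ 4 := by
      rw [rt_pow]
      have : (10 : ℝ) ^ 52 ≤ (q 0 : ℝ) := by exact_mod_cast hbig
      rw [← pow_mul]
      exact this
    exact (pow_le_pow_iff_left₀ (by positivity) (rt_pos 0).le (by norm_num)).1 h1
  have hterm : ∀ k : Fin K, ((univ.biUnion (fun ε : Lab =>
      ((range (M k + 1)).biUnion (fun t => B1 k ε t)) ∪ B2 k ε)).card : ℝ)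
      ≤ C * (6 / 100 * (17 / 20 : ℝ) ^ (k : ℕ)) := by
    intro k
    have hr := rt_pos (q := q) k
    have hq : (q k : ℝ) = rt q k ^ 4 := (rt_pow k).symm
    have h1 : ∀ ε t, ((B1 k ε t).card : ℝ) ≤ C * (4374 / rt q k ^ 2) := by
      intro ε t
      refine (fail_fc hA k ε t (rt q k ^ 15) (by positivity) (B1 k ε t) ?_).trans ?_
      · intro τ hτ
        rw [hB1] at hτ
        simp only at hτ
        rw [mem_filter] at hτ
        exact hτ.2
      · apply le_of_eq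
        congr 1
        rw [hq]
        field_simp
    have h2 : ∀ ε, ((B2 k ε).card : ℝ) ≤ C * (100000000 / rt q k ^ 3) := by
      intro ε
      refine (fail_gc hA k ε (rt q k ^ 15) (by positivity) (B2 k ε) ?_).trans ?_
      · intro τ hτ
        rw [hB2] at hτ
        simp only at hτ
        rw [mem_filter] at hτ
        exact hτ.2
      · apply le_of_eq
        congr 1
        rw [hq]
        field_simp
    have h3 : ((univ.biUnion (fun ε : Lab =>
        ((range (M k + 1)).biUnion (fun t => B1 k ε t)) ∪ B2 k ε)).card : ℝ) ≤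
        ∑ ε : Lab, (∑ t ∈ range (M k + 1), ((B1 k ε t).card : ℝ) + ((B2 k ε).card : ℝ)) := by
      have : (univ.biUnion (fun ε : Lab =>
        ((range (M k + 1)).biUnion (fun t => B1 k ε t)) ∪ B2 k ε)).card ≤
        ∑ ε : Lab, (∑ t ∈ range (M k + 1), (B1 k ε t).card + (B2 k ε).card) := by
        refine card_biUnion_le.trans (sum_le_sum (fun ε _ => ?_))
        refine (card_union_le _ _).trans ?_
        have := card_biUnion_le (s := range (M k + 1)) (t := fun t => B1 k ε t)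
        omega
      exact_mod_cast this
    have hrt : (10 : ℝ) ^ 13 * (20 / 17 : ℝ) ^ (k : ℕ) ≤ rt q k := by
      refine le_trans ?_ (rt_ge hA k)
      rw [mul_comm]
      exact mul_le_mul_of_nonneg_left h13 (by positivity)
    have hone : (1 : ℝ) ≤ rt q k := by
      refine le_trans ?_ hrt
      have : (1 : ℝ) ≤ (20 / 17 : ℝ) ^ (k : ℕ) := one_le_pow₀ (by norm_num)
      nlinarith
    have h4 : ∀ ε : Lab, (∑ t ∈ range (M k + 1), ((B1 k ε t).card : ℝ) + ((B2 k ε).card : ℝ)) ≤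
        C * (110000000 / rt q k) := by
      intro ε
      have e1 : ∑ t ∈ range (M k + 1), ((B1 k ε t).card : ℝ) ≤ C * (4374 / rt q k) := by
        calc ∑ t ∈ range (M k + 1), ((B1 k ε t).card : ℝ) ≤
            ∑ t ∈ range (M k + 1), C * (4374 / rt q k ^ 2) := sum_le_sum (fun t _ => h1 ε t)
          _ = ((M k : ℝ) + 1) * (C * (4374 / rt q k ^ 2)) := by
            rw [sum_const, card_range, nsmul_eq_mul]
            push_cast
            rfl
          _ ≤ rt q k * (C * (4374 / rt q k ^ 2)) :=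
            mul_le_mul_of_nonneg_right (hM k) (by positivity)
          _ = _ := by field_simp
      have e2 : ((B2 k ε).card : ℝ) ≤ C * (100000000 / rt q k) := by
        refine (h2 ε).trans ?_
        apply mul_le_mul_of_nonneg_left _ hC0.le
        apply div_le_div_of_nonneg_left (by norm_num) hr
        nlinarith [pow_pos hr 2]
      calc _ ≤ C * (4374 / rt q k) + C * (100000000 / rt q k) := add_le_add e1 e2
        _ = C * (100004374 / rt q k) := by ring
        _ ≤ _ := by gcongr; norm_num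
    calc _ ≤ _ := h3
      _ ≤ ∑ ε : Lab, C * (110000000 / rt q k) := sum_le_sum (fun ε _ => h4 ε)
      _ = 4096 * (C * (110000000 / rt q k)) := by
        rw [sum_const, card_univ, card_Lab, nsmul_eq_mul]
        push_cast
        rfl
      _ = C * (450560000000 / rt q k) := by ring
      _ ≤ C * (450560000000 / ((10 : ℝ) ^ 13 * (20 / 17 : ℝ) ^ (k : ℕ))) := by gcongr
      _ = C * (450560000000 / (10 : ℝ) ^ 13 * (17 / 20 : ℝ) ^ (k : ℕ)) := by
        have : (17 / 20 : ℝ) ^ (k : ℕ) = ((20 / 17 : ℝ) ^ (k : ℕ))⁻¹ := by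
          rw [← inv_pow]
          norm_num
        rw [this]
        field_simp
      _ ≤ _ := by
        apply mul_le_mul_of_nonneg_left _ hC0.le
        exact mul_le_mul_of_nonneg_right (by norm_num) (by positivity)
  calc (B.card : ℝ) ≤ ((∑ k : Fin K, (univ.biUnion (fun ε : Lab =>
      ((range (M k + 1)).biUnion (fun t => B1 k ε t)) ∪ B2 k ε)).card : ℕ) : ℝ) := by
          exact_mod_cast (card_le_card hcover).trans card_biUnion_le
      _ = ∑ k : Fin K, ((univ.biUnion (fun ε : Lab =>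
      ((range (M k + 1)).biUnion (fun t => B1 k ε t)) ∪ B2 k ε)).card : ℝ) := by push_cast; rfl
      _ ≤ ∑ k : Fin K, C * (6 / 100 * (17 / 20 : ℝ) ^ (k : ℕ)) := sum_le_sum (fun k _ => hterm k)
      _ = C * (6 / 100 * ∑ k ∈ range K, (17 / 20 : ℝ) ^ k) := by
        rw [← mul_sum, ← mul_sum, Fin.sum_univ_eq_sum_range (fun k => (17 / 20 : ℝ) ^ k) K]
      _ ≤ C * (6 / 100 * (20 / 3)) := by
        have := geo K
        gcongr
      _ ≤ _ := by
        apply mul_le_mul_of_nonneg_left _ hC0.le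
        norm_num

theorem exists_tau' (hA : Adm q Γ) (hbig : 10 ^ 52 ≤ q 0) (M : ℕ → ℕ)
    (hM : ∀ k, 243 ^ (M k) * (q k) ^ 8 ≤ (M k).factorial)
    (hM' : ∀ k, (M k : ℝ) + 1 ≤ rt q k) (K : ℕ) :
    ∃ τ : Om q K, (∀ k : Fin K, ∀ n < 1000 * q k ^ 4, ∀ ε : Lab,
      Fine Γ k (targ q n ε) (M k) 7 τ) ∧
      (∀ k : Fin K, ∀ ε : Lab, ∀ t, ((fc Γ k ε t τ).card : ℝ) ≤
        1000 * (q k : ℝ) ^ 4 * (243 ^ t / (t.factorial : ℝ)) + 2 * rt q k ^ 15) ∧
      (∀ k : Fin K, ∀ ε : Lab, ((gc Γ k ε τ).card : ℝ) ≤ rt q k ^ 15) := by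
  classical
  set C : ℝ := (Fintype.card (Om q K) : ℝ) with hC
  have hC0 : 0 < C := by
    rw [hC]
    exact_mod_cast Fintype.card_pos
  set B1 : Finset (Om q K) := univ.filter (fun τ => ∃ k : Fin K, ∃ n < 1000 * q k ^ 4,
    ∃ ε : Lab, ¬ Fine Γ k (targ q n ε) (M k) 7 τ) with hB1
  set B2 : Finset (Om q K) := univ.filter (fun τ => ∃ k : Fin K, ∃ ε : Lab,
      (∃ t ≤ M k, 1000 * (q k : ℝ) ^ 4 * (243 ^ t / (t.factorial : ℝ)) + rt q k ^ 15 ≤
        ((fc Γ k ε t τ).card : ℝ)) ∨ rt q k ^ 15 ≤ ((gc Γ k ε τ).card : ℝ)) with hB2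
  have h1 := fine_fail hA (le_trans (by norm_num) hbig) M hM K B1
    (fun τ hτ => (mem_filter.1 hτ).2)
  have h2 := count_fail hA hbig M hM' K B2 (fun τ hτ => (mem_filter.1 hτ).2)
  rw [← hC] at h1 h2
  have h3 : (B1 ∪ B2).card < Fintype.card (Om q K) := by
    have h4 : ((B1 ∪ B2).card : ℝ) ≤ (B1.card : ℝ) + (B2.card : ℝ) := by
      exact_mod_cast card_union_le B1 B2
    have h5 : ((B1 ∪ B2).card : ℝ) < C := by linarith
    rw [hC] at h5
    exact_mod_cast h5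
  obtain ⟨τ, hτ⟩ : ∃ τ : Om q K, τ ∉ B1 ∪ B2 := by
    by_contra hcon
    push Not at hcon
    have : (univ : Finset (Om q K)) ⊆ B1 ∪ B2 := fun τ _ => hcon τ
    have := card_le_card this
    rw [card_univ] at this
    omega
  rw [mem_union, not_or] at hτ
  obtain ⟨hτ1, hτ2⟩ := hτ
  have g1 : ∀ k : Fin K, ∀ n < 1000 * q k ^ 4, ∀ ε : Lab,
      Fine Γ k (targ q n ε) (M k) 7 τ := by
    intro k n hn ε
    by_contra hf
    apply hτ1
    rw [hB1, mem_filter]
    exact ⟨mem_univ _, k, n, hn, ε, hf⟩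
  have g2 : ∀ k : Fin K, ∀ ε : Lab, ∀ t ≤ M k, ((fc Γ k ε t τ).card : ℝ) <
        1000 * (q k : ℝ) ^ 4 * (243 ^ t / (t.factorial : ℝ)) + rt q k ^ 15 := by
    intro k ε t ht
    by_contra hf
    push Not at hf
    apply hτ2
    rw [hB2, mem_filter]
    exact ⟨mem_univ _, k, ε, Or.inl ⟨t, ht, hf⟩⟩
  have g3 : ∀ k : Fin K, ∀ ε : Lab, ((gc Γ k ε τ).card : ℝ) < rt q k ^ 15 := by
    intro k ε
    by_contra hf
    push Not at hf
    apply hτ2
    rw [hB2, mem_filter]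
    exact ⟨mem_univ _, k, ε, Or.inr hf⟩
  refine ⟨τ, g1, ?_, fun k ε => (g3 k ε).le⟩
  intro k ε t
  have hr := rt_pos (q := q) k
  have hone : (1 : ℝ) ≤ rt q k := le_trans (by have := Nat.cast_nonneg (α := ℝ) (M k); linarith)
    (hM' k)
  have hpow1 : (1 : ℝ) ≤ rt q k ^ 15 := one_le_pow₀ hone
  rcases le_or_gt t (M k) with ht | ht
  · have := (g2 k ε t ht).le
    linarith
  · have hsub : fc Γ k ε t τ ⊆ fc Γ k ε (M k) τ := by
      intro n hn
      rw [mem_fc] at hn ⊢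
      exact ⟨hn.1, hn.2.mono ht.le⟩
    have h5 : ((fc Γ k ε t τ).card : ℝ) ≤ ((fc Γ k ε (M k) τ).card : ℝ) := by
      exact_mod_cast card_le_card hsub
    have h6 := g2 k ε (M k) le_rfl
    have h7 : 1000 * (q k : ℝ) ^ 4 * (243 ^ (M k) / ((M k).factorial : ℝ)) ≤ 1 := by
      have hfac : (0 : ℝ) < ((M k).factorial : ℝ) := by exact_mod_cast (M k).factorial_pos
      rw [← mul_div_assoc, div_le_one hfac]
      have h8 : (243 : ℝ) ^ (M k) * (q k : ℝ) ^ 8 ≤ ((M k).factorial : ℝ) := by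
        exact_mod_cast hM k
      refine le_trans ?_ h8
      have h9 : (1000 : ℝ) ≤ q k := by
        have h10 := hA.pow_le k
        have h11 : 1 ≤ 2 ^ k.val := Nat.one_le_two_pow
        have h12 : 1000 ≤ q k := by nlinarith
        exact_mod_cast h12
      have h13 : 1000 * (q k : ℝ) ^ 4 ≤ (q k : ℝ) ^ 8 := by
        have h14 : (1000 : ℝ) ≤ (q k : ℝ) ^ 4 := by
          calc (1000 : ℝ) ≤ q k := h9
            _ ≤ (q k : ℝ) ^ 4 := le_self_pow₀ (by linarith) (by norm_num)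
        calc 1000 * (q k : ℝ) ^ 4 ≤ (q k : ℝ) ^ 4 * (q k : ℝ) ^ 4 := by gcongr
          _ = _ := by ring
      calc _ ≤ (q k : ℝ) ^ 8 * 243 ^ (M k) := by gcongr
        _ = _ := by ring
    have h15 : (0 : ℝ) ≤ 1000 * (q k : ℝ) ^ 4 * (243 ^ t / (t.factorial : ℝ)) := by positivity
    linarith

end Pool.Agent.Helper52.Thin
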