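import Pool.Agent.Helper52.Thin.Pre

set_option autoImplicit false
set_option linter.unusedSectionVars false

namespace Pool.Agent.Helper52.Thin

open Finset Filter Pool.Agent.Helper3.Thin

lemma xlogx_nonneg {x : ℝ} (hx : 1 ≤ x) : 0 ≤ x * Real.log x :=
  mul_nonneg (by linarith) (Real.log_nonneg hx)

lemma self_le {x : ℝ} (hx : 1 ≤ x) : x ≤ 3 + x * Real.log x := by
  rcases le_or_gt x 3 with h | h
  · linarith [xlogx_nonneg hx]
  · have h1 : 1 ≤ Real.log x := by
      rw [Real.le_log_iff_exp_le (by linarith)]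
      linarith [Real.exp_one_lt_d9]
    nlinarith

lemma xlogx_mono {x y : ℝ} (hx : 1 ≤ x) (hxy : x ≤ y) : x * Real.log x ≤ y * Real.log y := by
  have h1 := Real.log_le_log (by linarith) hxy
  have h2 := Real.log_nonneg hx
  nlinarith

lemma xlogx_mul {a x : ℝ} (ha : 1 ≤ a) (hx : 1 ≤ x) :
    (a * x) * Real.log (a * x) ≤ (a + 3 * (a * Real.log a)) * (1 + x * Real.log x) := by
  have h1 := xlogx_nonneg ha
  have h2 := xlogx_nonneg hx
  have h3 := self_le hx
  rw [Real.log_mul (by linarith) (by linarith)]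
  have h4 : (a * x) * (Real.log a + Real.log x) = (a * Real.log a) * x + a * (x * Real.log x) := by
    ring
  rw [h4]
  have h5 : (a * Real.log a) * x ≤ (a * Real.log a) * (3 + x * Real.log x) :=
    mul_le_mul_of_nonneg_left h3 h1
  nlinarith [mul_nonneg h1 h2]

/-- `F log F` is `O(log N)` for `F = facBd N`. -/
lemma facBd_log : ∃ K : ℝ, 0 ≤ K ∧ ∀ N : ℕ, 1 ≤ N → 1 ≤ facBd N →
    (facBd N : ℝ) * Real.log (facBd N) ≤ K * (1 + Real.log N) := by
  set κ : ℝ := 1 + Real.log 243 with hκ
  have hκ0 : 0 < κ := by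
    have : 0 < Real.log 243 := Real.log_pos (by norm_num)
    linarith
  set K1 : ℝ := Real.exp (2 * κ) * (2 * κ) with hK1
  have hK10 : 0 ≤ K1 := by positivity
  refine ⟨(2 + 3 * (2 * Real.log 2)) * (1 + K1 + 16), ?_, ?_⟩
  · have := Real.log_nonneg (show (1 : ℝ) ≤ 2 by norm_num)
    positivity
  intro N hN hF
  have hL : 0 ≤ Real.log (N : ℝ) := Real.log_nonneg (by exact_mod_cast hN)
  have hl2 := Real.log_nonneg (show (1 : ℝ) ≤ 2 by norm_num)
  obtain ⟨f, hf⟩ : ∃ f, facBd N = f + 1 := ⟨facBd N - 1, by omega⟩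
  rcases Nat.eq_zero_or_pos f with h0 | hpos
  · rw [hf, h0]
    simp only [zero_add, Nat.cast_one, Real.log_one, mul_zero]
    positivity
  · have hnot : ¬ (243 ^ f * N ^ 8 ≤ f.factorial) := by
      intro h
      have := facBd_le h
      omega
    push Not at hnot
    have h1 : Real.log (f.factorial : ℝ) ≤ f * Real.log 243 + 8 * Real.log N := by
      have h2 : (f.factorial : ℝ) ≤ (243 : ℝ) ^ f * (N : ℝ) ^ 8 := by exact_mod_cast hnot.le
      have h3 := Real.log_le_log (by exact_mod_cast f.factorial_pos) h2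
      have hN0 : (0 : ℝ) < N := by exact_mod_cast hN
      rw [Real.log_mul (by positivity) (by positivity), Real.log_pow, Real.log_pow] at h3
      exact_mod_cast h3
    have h2 := log_fac f hpos
    have hf1 : (1 : ℝ) ≤ f := by exact_mod_cast hpos
    have h3 : (f : ℝ) * Real.log f ≤ K1 + 16 * Real.log N := by
      rcases le_or_gt (Real.log f) (2 * κ) with h4 | h4
      · have h5 : (f : ℝ) ≤ Real.exp (2 * κ) := by
          rw [← Real.exp_log (show (0 : ℝ) < f by linarith)]
          exact Real.exp_le_exp.2 h4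
        have h6 : (f : ℝ) * Real.log f ≤ K1 := by
          rw [hK1]
          exact mul_le_mul h5 h4 (Real.log_nonneg hf1) (Real.exp_pos _).le
        linarith
      · have h5 : (f : ℝ) * κ ≤ f * Real.log f / 2 := by nlinarith
        have h6 : (f : ℝ) * κ = f + f * Real.log 243 := by rw [hκ]; ring
        linarith
    have h4 : ((facBd N : ℕ) : ℝ) ≤ 2 * f := by
      rw [hf]
      push_cast
      linarith
    have h5 : (1 : ℝ) ≤ (facBd N : ℝ) := by exact_mod_cast hF
    calc (facBd N : ℝ) * Real.log (facBd N) ≤ (2 * f) * Real.log (2 * f) := xlogx_mono h5 h4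
      _ ≤ (2 + 3 * (2 * Real.log 2)) * (1 + f * Real.log f) := xlogx_mul (by norm_num) hf1
      _ ≤ (2 + 3 * (2 * Real.log 2)) * ((1 + K1 + 16) * (1 + Real.log N)) := by
        apply mul_le_mul_of_nonneg_left _ (by positivity)
        nlinarith
      _ = _ := by ring

/-- A bound of the form `243 ^ m / m!` by `exp (- m log m / 2)`. -/
lemma fac_exp (κ : ℝ) (hκ : 0 ≤ κ) : ∃ C : ℝ, 0 < C ∧ ∀ m : ℕ, 1 ≤ m →
    243 ^ m / (m.factorial : ℝ) * Real.exp (κ * m + m * Real.log m / 2) ≤ C := by
  set κ' : ℝ := κ + 1 + Real.log 243 with hκ'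
  have h243 : 0 < Real.log 243 := Real.log_pos (by norm_num)
  have hκ0 : 0 < κ' := by linarith
  refine ⟨Real.exp (κ' * Real.exp (2 * κ')), Real.exp_pos _, ?_⟩
  intro m hm
  have hm1 : (1 : ℝ) ≤ m := by exact_mod_cast hm
  have hfac : (0 : ℝ) < (m.factorial : ℝ) := by exact_mod_cast m.factorial_pos
  have h1 := log_fac m hm
  have h2 : 243 ^ m / (m.factorial : ℝ) = Real.exp (m * Real.log 243 -
      Real.log (m.factorial : ℝ)) := by
    rw [Real.exp_sub, Real.exp_log hfac, mul_comm, Real.exp_mul, Real.exp_log (by norm_num),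
      Real.rpow_natCast]
  rw [h2, ← Real.exp_add, Real.exp_le_exp]
  have h3 : (m : ℝ) * (κ' - Real.log m / 2) ≤ κ' * Real.exp (2 * κ') := by
    rcases le_or_gt (Real.log m) (2 * κ') with h4 | h4
    · have h5 : (m : ℝ) ≤ Real.exp (2 * κ') := by
        rw [← Real.exp_log (show (0 : ℝ) < m by linarith)]
        exact Real.exp_le_exp.2 h4
      have h6 := Real.log_nonneg hm1
      calc (m : ℝ) * (κ' - Real.log m / 2) ≤ m * κ' := by nlinarith
        _ ≤ Real.exp (2 * κ') * κ' := mul_le_mul_of_nonneg_right h5 hκ0.le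
        _ = _ := by ring
    · have h5 : (m : ℝ) * (κ' - Real.log m / 2) ≤ 0 := by nlinarith
      have h6 : 0 ≤ κ' * Real.exp (2 * κ') := by positivity
      linarith
  refine le_trans ?_ h3
  rw [hκ']
  linarith

/-- The number of representations. -/
noncomputable def rp (A : Set ℕ) (n : ℕ) : ℕ := (Rp A n).ncard

theorem tail_of (r : ℕ → ℕ) (α β : ℕ) (hα : 1 ≤ α) (hβ : 1 ≤ β) (c0 : ℝ) (hc0 : 0 ≤ c0)
    (h1 : ∀ n, r n ≤ α + β * (29 * facBd n))
    (h2 : ∀ (N t : ℕ) (y : ℝ), 0 ≤ y → (N : ℝ) ≤ y ^ 16 →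
      (((range N).filter (fun n => α + β * t < r n)).card : ℝ) ≤
        c0 * (2000 * (N : ℝ) * (243 ^ (t + 1) / ((t + 1).factorial : ℝ)) + 6 * y ^ 15)) :
    ∃ c C : ℝ, 0 < c ∧ ∀ N u : ℕ, 1 ≤ u →
      (((range N).filter (fun n => u ≤ r n)).card : ℝ) ≤
        C * N * Real.exp (-(c * u * Real.log u)) := by
  obtain ⟨K, hK0, hK⟩ := facBd_log
  set γ : ℝ := (α : ℝ) + β with hγ
  have hα1 : (1 : ℝ) ≤ α := by exact_mod_cast hα
  have hβ1 : (1 : ℝ) ≤ β := by exact_mod_cast hβ
  have hγ1 : 1 ≤ γ := by linarith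
  set δ : ℝ := γ * 29 with hδ
  have hδ1 : 1 ≤ δ := by linarith
  set K2 : ℝ := (δ + 3 * (δ * Real.log δ)) * (1 + K) with hK2
  have hδl := xlogx_nonneg hδ1
  have hK20 : 0 < K2 := by positivity
  obtain ⟨C1, hC10, hC1⟩ := fac_exp (Real.log γ / 2) (by
    have := Real.log_nonneg hγ1
    positivity)
  -- the exponent
  set c : ℝ := min (1 / (2 * γ)) (1 / (16 * K2)) with hc
  have hc0' : 0 < c := by
    rw [hc]
    apply lt_min <;> positivity
  have hcγ : c * γ ≤ 1 / 2 := by
    have : c ≤ 1 / (2 * γ) := min_le_left _ _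
    calc c * γ ≤ 1 / (2 * γ) * γ := mul_le_mul_of_nonneg_right this (by linarith)
      _ = 1 / 2 := by field_simp
  have hcK : c * K2 ≤ 1 / 16 := by
    have : c ≤ 1 / (16 * K2) := min_le_right _ _
    calc c * K2 ≤ 1 / (16 * K2) * K2 := mul_le_mul_of_nonneg_right this hK20.le
      _ = 1 / 16 := by field_simp
  set C2 : ℝ := Real.exp (c * (α * Real.log α)) with hC2
  set C3 : ℝ := c0 * (2000 * C1 + 6 * Real.exp (1 / 16)) with hC3
  refine ⟨c, C2 + C3, hc0', ?_⟩
  have hC20 : 0 ≤ C2 := (Real.exp_pos _).le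
  have hC30 : 0 ≤ C3 := by positivity
  intro N u hu
  have hu1 : (1 : ℝ) ≤ u := by exact_mod_cast hu
  set S := (range N).filter (fun n => u ≤ r n) with hS
  have hN0 : (0 : ℝ) ≤ N := Nat.cast_nonneg _
  -- reduce to a bound without exponentials on the right
  suffices h : (S.card : ℝ) * Real.exp (c * u * Real.log u) ≤ (C2 + C3) * N by
    rw [Real.exp_neg, ← div_eq_mul_inv, le_div_iff₀ (Real.exp_pos _)]
    exact h
  rcases S.eq_empty_or_nonempty with h0 | ⟨n0, hn0⟩
  · rw [h0]
    simp only [card_empty, Nat.cast_zero, zero_mul]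
    positivity
  rw [hS, mem_filter, mem_range] at hn0
  have hN1 : 1 ≤ N := by omega
  have hN1' : (1 : ℝ) ≤ N := by exact_mod_cast hN1
  rcases le_or_gt u α with hua | hua
  · have h3 : (S.card : ℝ) ≤ N := by
      have : S.card ≤ N := by
        rw [hS]
        exact (card_filter_le _ _).trans (by rw [card_range])
      exact_mod_cast this
    have h4 : Real.exp (c * u * Real.log u) ≤ C2 := by
      rw [hC2, Real.exp_le_exp, mul_assoc]
      apply mul_le_mul_of_nonneg_left _ hc0'.le
      apply xlogx_mono hu1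
      exact_mod_cast hua
    calc (S.card : ℝ) * Real.exp (c * u * Real.log u) ≤ N * C2 :=
          mul_le_mul h3 h4 (Real.exp_pos _).le hN0
      _ ≤ (C2 + C3) * N := by nlinarith
  · -- choose `t`
    obtain ⟨t, ht1, ht2⟩ : ∃ t, α + β * t ≤ u - 1 ∧ u ≤ α + β * (t + 1) := by
      refine ⟨(u - 1 - α) / β, ?_, ?_⟩
      · have := Nat.mul_div_le (u - 1 - α) β
        omega
      · have h3 : u - 1 - α < β * ((u - 1 - α) / β + 1) := Nat.lt_mul_div_succ _ (by omega)
        omega
    have hum : (u : ℝ) ≤ γ * ((t + 1 : ℕ) : ℝ) := by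
      have h3 : (u : ℝ) ≤ α + β * ((t + 1 : ℕ) : ℝ) := by exact_mod_cast ht2
      have h4 : (1 : ℝ) ≤ ((t + 1 : ℕ) : ℝ) := by
        push_cast
        linarith [Nat.cast_nonneg (α := ℝ) t]
      rw [hγ]
      nlinarith
    have htF : t < 29 * facBd N := by
      have h3 := h1 n0
      have h4 : facBd n0 ≤ facBd N := facBd_mono hn0.1.le
      have h5 : β * t < β * (29 * facBd n0) := by omega
      have h6 := Nat.lt_of_mul_lt_mul_left h5
      omega
    set m : ℕ := t + 1 with hm
    have hm1 : (1 : ℝ) ≤ (m : ℝ) := by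
      have : 1 ≤ m := by omega
      exact_mod_cast this
    have hF1 : 1 ≤ facBd N := by omega
    have hF1' : (1 : ℝ) ≤ (facBd N : ℝ) := by exact_mod_cast hF1
    have hmF : (m : ℝ) ≤ 29 * (facBd N : ℝ) := by
      have : m ≤ 29 * facBd N := by omega
      exact_mod_cast this
    -- the bound for the count
    set y : ℝ := (N : ℝ) ^ (1 / 16 : ℝ) with hy
    have hy0 : 0 < y := by
      rw [hy]
      positivity
    have hy16 : y ^ 16 = N := by
      rw [hy, ← Real.rpow_natCast, ← Real.rpow_mul hN0]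
      norm_num
    have hcard := h2 N t y hy0.le hy16.ge
    have hsub : S ⊆ (range N).filter (fun n => α + β * t < r n) := by
      intro n hn
      rw [hS, mem_filter] at hn
      rw [mem_filter]
      exact ⟨hn.1, by omega⟩
    have hcard2 : (S.card : ℝ) ≤
        c0 * (2000 * (N : ℝ) * (243 ^ m / (m.factorial : ℝ)) + 6 * y ^ 15) :=
      le_trans (by exact_mod_cast card_le_card hsub) hcard
    -- the first part
    have e1 : (243 ^ m / (m.factorial : ℝ)) * Real.exp (c * u * Real.log u) ≤ C1 := by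
      refine le_trans ?_ (hC1 m (by omega))
      apply mul_le_mul_of_nonneg_left _ (by positivity)
      rw [Real.exp_le_exp]
      have h3 : (u : ℝ) * Real.log u ≤ (γ * m) * Real.log (γ * m) := xlogx_mono hu1 hum
      have h4 : (γ * m) * Real.log (γ * m) = γ * (m * (Real.log γ + Real.log m)) := by
        rw [Real.log_mul (by linarith) (by linarith)]
        ring
      have h5 : 0 ≤ (m : ℝ) * (Real.log γ + Real.log m) := by
        have := Real.log_nonneg hγ1
        have := Real.log_nonneg hm1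
        positivity
      calc c * u * Real.log u = c * (u * Real.log u) := by ring
        _ ≤ c * (γ * (m * (Real.log γ + Real.log m))) := by
          rw [← h4]
          exact mul_le_mul_of_nonneg_left h3 hc0'.le
        _ = (c * γ) * (m * (Real.log γ + Real.log m)) := by ring
        _ ≤ 1 / 2 * (m * (Real.log γ + Real.log m)) := mul_le_mul_of_nonneg_right hcγ h5
        _ = _ := by ring
    -- the second part
    have e2 : y ^ 15 * Real.exp (c * u * Real.log u) ≤ Real.exp (1 / 16) * N := by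
      have h3 : (u : ℝ) ≤ δ * (facBd N : ℝ) := by
        rw [hδ]
        calc (u : ℝ) ≤ γ * m := hum
          _ ≤ γ * (29 * (facBd N : ℝ)) := mul_le_mul_of_nonneg_left hmF (by linarith)
          _ = _ := by ring
      have h4 : (u : ℝ) * Real.log u ≤ K2 * (1 + Real.log N) := by
        calc (u : ℝ) * Real.log u ≤ (δ * (facBd N : ℝ)) * Real.log (δ * (facBd N : ℝ)) :=
              xlogx_mono hu1 h3
          _ ≤ (δ + 3 * (δ * Real.log δ)) * (1 + (facBd N : ℝ) * Real.log (facBd N : ℝ)) :=
              xlogx_mul hδ1 hF1'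
          _ ≤ (δ + 3 * (δ * Real.log δ)) * ((1 + K) * (1 + Real.log N)) := by
              apply mul_le_mul_of_nonneg_left _ (by positivity)
              have h5 := hK N hN1 hF1
              have h6 := Real.log_nonneg hN1'
              nlinarith
          _ = _ := by rw [hK2]; ring
      have h5 : Real.exp (c * u * Real.log u) ≤ Real.exp (1 / 16) * y := by
        have h6 : y = Real.exp (Real.log N * (1 / 16)) := by
          rw [hy, Real.rpow_def_of_pos (by linarith)]
        rw [h6, ← Real.exp_add, Real.exp_le_exp]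
        have h7 : 0 ≤ 1 + Real.log (N : ℝ) := by
          have := Real.log_nonneg hN1'
          linarith
        calc c * u * Real.log u = c * (u * Real.log u) := by ring
          _ ≤ c * (K2 * (1 + Real.log N)) := mul_le_mul_of_nonneg_left h4 hc0'.le
          _ = (c * K2) * (1 + Real.log N) := by ring
          _ ≤ 1 / 16 * (1 + Real.log N) := mul_le_mul_of_nonneg_right hcK h7
          _ = _ := by ring
      calc y ^ 15 * Real.exp (c * u * Real.log u) ≤ y ^ 15 * (Real.exp (1 / 16) * y) :=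
            mul_le_mul_of_nonneg_left h5 (by positivity)
        _ = Real.exp (1 / 16) * y ^ 16 := by ring
        _ = _ := by rw [hy16]
    calc (S.card : ℝ) * Real.exp (c * u * Real.log u) ≤
        c0 * (2000 * (N : ℝ) * (243 ^ m / (m.factorial : ℝ)) + 6 * y ^ 15) *
          Real.exp (c * u * Real.log u) :=
          mul_le_mul_of_nonneg_right hcard2 (Real.exp_pos _).le
      _ = c0 * (2000 * (N : ℝ) * ((243 ^ m / (m.factorial : ℝ)) *
          Real.exp (c * u * Real.log u)) + 6 * (y ^ 15 * Real.exp (c * u * Real.log u))) := by ring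
      _ ≤ c0 * (2000 * (N : ℝ) * C1 + 6 * (Real.exp (1 / 16) * N)) := by
          apply mul_le_mul_of_nonneg_left _ hc0
          apply add_le_add
          · exact mul_le_mul_of_nonneg_left e1 (by positivity)
          · exact mul_le_mul_of_nonneg_left e2 (by norm_num)
      _ = C3 * N := by rw [hC3]; ring
      _ ≤ (C2 + C3) * N := by nlinarith

/-- Exponential moments from the tail bound. -/
theorem moments_of (r : ℕ → ℕ) (c C : ℝ) (hc : 0 < c)
    (h : ∀ N u : ℕ, 1 ≤ u → (((range N).filter (fun n => u ≤ r n)).card : ℝ) ≤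
        C * N * Real.exp (-(c * u * Real.log u))) (lam : ℝ) :
    ∃ C' : ℝ, ∀ N : ℕ, ∑ n ∈ range N, Real.exp (lam * r n) ≤ C' * N := by
  classical
  set l : ℝ := max lam 0 with hl
  have hl0 : 0 ≤ l := le_max_right _ _
  have hC0 : 0 ≤ C := by
    have := h 1 1 le_rfl
    have h2 : (0 : ℝ) ≤ (((range 1).filter (fun n => 1 ≤ r n)).card : ℝ) := Nat.cast_nonneg _
    have h3 := h2.trans this
    simp only [Nat.cast_one, Real.log_one, mul_zero, neg_zero, Real.exp_zero, mul_one] at h3
    exact h3
  set κ : ℝ := (l + 1) / c with hκ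
  set E : ℝ := Real.exp ((l + 1) * Real.exp κ) with hE
  have hE0 : 0 < E := Real.exp_pos _
  refine ⟨1 + C * E * 2, ?_⟩
  intro N
  -- pointwise layer cake
  set T := (range N).sup r with hT
  have hrT : ∀ n ∈ range N, r n ≤ T := fun n hn => le_sup (f := r) hn
  have h1 : ∀ n ∈ range N, Real.exp (lam * r n) ≤
      ∑ u ∈ range (T + 1), if u ≤ r n then Real.exp (l * u) else 0 := by
    intro n hn
    have h2 : Real.exp (lam * r n) ≤ Real.exp (l * r n) := by
      rw [Real.exp_le_exp]
      exact mul_le_mul_of_nonneg_right (le_max_left _ _) (Nat.cast_nonneg _)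
    refine h2.trans ?_
    have h3 := single_le_sum (f := fun u : ℕ => if u ≤ r n then Real.exp (l * u) else 0)
      (s := range (T + 1)) (fun u _ => by
        split_ifs
        · exact (Real.exp_pos _).le
        · exact le_rfl) (a := r n) (by
        rw [mem_range]
        exact Nat.lt_succ_of_le (hrT n hn))
    simpa using h3
  have h2 : ∑ n ∈ range N, Real.exp (lam * r n) ≤
      ∑ u ∈ range (T + 1), Real.exp (l * u) * (((range N).filter (fun n => u ≤ r n)).card : ℝ) := by
    refine (sum_le_sum h1).trans ?_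
    rw [sum_comm]
    apply le_of_eq
    refine Finset.sum_congr rfl (fun u _ => ?_)
    rw [← Finset.sum_filter, sum_const, nsmul_eq_mul, mul_comm]
  refine h2.trans ?_
  rw [sum_range_succ']
  have hN0 : (0 : ℝ) ≤ N := Nat.cast_nonneg _
  have h3 : Real.exp (l * ((0 : ℕ) : ℝ)) * (((range N).filter (fun n => 0 ≤ r n)).card : ℝ) ≤ N := by
    simp only [Nat.cast_zero, mul_zero, Real.exp_zero, one_mul]
    have : ((range N).filter (fun n => 0 ≤ r n)).card ≤ N :=
      (card_filter_le _ _).trans (by rw [card_range])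
    exact_mod_cast this
  have h4 : ∀ u ∈ range T, Real.exp (l * ((u + 1 : ℕ) : ℝ)) *
      (((range N).filter (fun n => u + 1 ≤ r n)).card : ℝ) ≤ C * N * E * (1 / 2 : ℝ) ^ u := by
    intro u _
    have h5 := h N (u + 1) (by omega)
    set v : ℝ := ((u + 1 : ℕ) : ℝ) with hv
    have hv1 : 1 ≤ v := by
      rw [hv]
      push_cast
      linarith [Nat.cast_nonneg (α := ℝ) u]
    have h6 : l * v + -(c * v * Real.log v) ≤ (l + 1) * Real.exp κ + -v := by
      rcases le_or_gt (Real.log v) κ with h7 | h7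
      · have h8 : v ≤ Real.exp κ := by
          rw [← Real.exp_log (show 0 < v by linarith)]
          exact Real.exp_le_exp.2 h7
        have h9 : 0 ≤ c * v * Real.log v := by
          have := Real.log_nonneg hv1
          positivity
        nlinarith
      · have h8 : c * κ = l + 1 := by
          rw [hκ]
          field_simp
        have h9 : (l + 1) * v ≤ c * v * Real.log v := by
          calc (l + 1) * v = c * v * κ := by rw [← h8]; ring
            _ ≤ _ := by
              apply mul_le_mul_of_nonneg_left h7.le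
              positivity
        have h10 : 0 ≤ (l + 1) * Real.exp κ := by positivity
        linarith
    have h7 : Real.exp (l * v) * Real.exp (-(c * v * Real.log v)) ≤ E * (1 / 2 : ℝ) ^ u := by
      rw [← Real.exp_add]
      calc Real.exp (l * v + -(c * v * Real.log v)) ≤ Real.exp ((l + 1) * Real.exp κ + -v) :=
            Real.exp_le_exp.2 h6
        _ = E * Real.exp (-v) := by rw [Real.exp_add]
        _ ≤ E * (1 / 2 : ℝ) ^ u := by
          apply mul_le_mul_of_nonneg_left _ hE0.le
          have h8 : Real.exp (-v) ≤ Real.exp (-(u : ℝ)) := by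
            rw [Real.exp_le_exp, hv]
            push_cast
            linarith
          refine h8.trans ?_
          have h9 : Real.exp (-(u : ℝ)) = (Real.exp (-1)) ^ u := by
            rw [← Real.exp_nat_mul]
            congr 1
            ring
          rw [h9]
          apply pow_le_pow_left₀ (Real.exp_pos _).le
          rw [Real.exp_neg, ← one_div]
          apply one_div_le_one_div_of_le (by norm_num)
          have := Real.add_one_le_exp (1 : ℝ)
          linarith
    calc Real.exp (l * v) * (((range N).filter (fun n => u + 1 ≤ r n)).card : ℝ) ≤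
        Real.exp (l * v) * (C * N * Real.exp (-(c * v * Real.log v))) :=
          mul_le_mul_of_nonneg_left h5 (Real.exp_pos _).le
      _ = C * N * (Real.exp (l * v) * Real.exp (-(c * v * Real.log v))) := by ring
      _ ≤ C * N * (E * (1 / 2 : ℝ) ^ u) := mul_le_mul_of_nonneg_left h7 (by positivity)
      _ = _ := by ring
  have h5 : ∑ u ∈ range T, (1 / 2 : ℝ) ^ u ≤ 2 := by
    have := sum_geometric_two_le T
    simpa using this
  calc _ ≤ ∑ u ∈ range T, C * N * E * (1 / 2 : ℝ) ^ u + N := add_le_add (sum_le_sum h4) h3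
    _ = C * N * E * ∑ u ∈ range T, (1 / 2 : ℝ) ^ u + N := by rw [mul_sum]
    _ ≤ C * N * E * 2 + N := by gcongr
    _ = _ := by ring

/-- Adding an initial segment. -/
lemma rp_union (A : Set ℕ) (N0 n : ℕ) :
    rp (A ∪ {x | x ≤ N0}) n ≤ rp A n + 2 * (N0 + 1) := by
  classical
  unfold rp
  set X := Rp A n with hX
  set Y : Finset (ℕ × ℕ) := (range (N0 + 1)).image (fun a => (a, n - a)) with hY
  set Z : Finset (ℕ × ℕ) := (range (N0 + 1)).image (fun b => (n - b, b)) with hZ
  have hsub : Rp (A ∪ {x | x ≤ N0}) n ⊆ X ∪ ((Y : Set (ℕ × ℕ)) ∪ (Z : Set (ℕ × ℕ))) := by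
    rintro ⟨a, b⟩ ⟨ha, hb, hab⟩
    simp only at ha hb hab
    rcases ha with ha | ha
    · rcases hb with hb | hb
      · left
        exact ⟨ha, hb, hab⟩
      · right; right
        rw [Finset.mem_coe, hZ, mem_image]
        refine ⟨b, ?_, ?_⟩
        · rw [mem_range]
          have : b ≤ N0 := hb
          omega
        · refine Prod.ext ?_ rfl
          simp only
          omega
    · right; left
      rw [Finset.mem_coe, hY, mem_image]
      refine ⟨a, ?_, ?_⟩
      · rw [mem_range]
        have : a ≤ N0 := ha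
        omega
      · refine Prod.ext rfl ?_
        simp only
        omega
  have hfin : (X ∪ ((Y : Set (ℕ × ℕ)) ∪ (Z : Set (ℕ × ℕ)))).Finite :=
    (Rp_finite A n).union ((Finset.finite_toSet Y).union (Finset.finite_toSet Z))
  have hYc : Y.card ≤ N0 + 1 := by
    rw [hY]
    exact card_image_le.trans (by rw [card_range])
  have hZc : Z.card ≤ N0 + 1 := by
    rw [hZ]
    exact card_image_le.trans (by rw [card_range])
  calc _ ≤ (X ∪ ((Y : Set (ℕ × ℕ)) ∪ (Z : Set (ℕ × ℕ)))).ncard := Set.ncard_le_ncard hsub hfin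
    _ ≤ X.ncard + ((Y : Set (ℕ × ℕ)) ∪ (Z : Set (ℕ × ℕ))).ncard := Set.ncard_union_le _ _
    _ ≤ X.ncard + ((Y : Set (ℕ × ℕ)).ncard + (Z : Set (ℕ × ℕ)).ncard) :=
      Nat.add_le_add_left (Set.ncard_union_le _ _) _
    _ ≤ _ := by
      rw [Set.ncard_coe_finset, Set.ncard_coe_finset]
      omega

/-- A basis of order two with Poisson-like tails for the representation function. -/
theorem tail_basis : ∃ A : Set ℕ, (∀ n : ℕ, ∃ a ∈ A, ∃ b ∈ A, a + b = n) ∧
    (∃ C : ℝ, ∀ᶠ n : ℕ in atTop, (rp A n : ℝ) ≤ C * (Real.log n / Real.log (Real.log n))) ∧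
    (∃ c C : ℝ, 0 < c ∧ ∀ N u : ℕ, 1 ≤ u →
      (((range N).filter (fun n => u ≤ rp A n)).card : ℝ) ≤
        C * N * Real.exp (-(c * u * Real.log u))) ∧
    ∀ lam : ℝ, ∃ C : ℝ, ∀ N : ℕ, ∑ n ∈ range N, Real.exp (lam * rp A n) ≤ C * N := by
  classical
  obtain ⟨A, N0, hcov, hrep, hcnt⟩ := exists_pre'
  set A' : Set ℕ := A ∪ {x | x ≤ N0} with hA'
  set α : ℕ := 3 * (4096 * (4096 * 1296)) + 2 * (N0 + 1) with hα
  set β : ℕ := 3 * (4096 * (4096 * 2)) with hβ
  have hle : ∀ n, rp A' n ≤ rp A n + 2 * (N0 + 1) := fun n => rp_union A N0 n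
  have hb1 : ∀ n, rp A' n ≤ α + β * (29 * facBd n) := by
    intro n
    have h1 := hrep n
    have h2 := hle n
    unfold rp at h2 ⊢
    rw [hα, hβ]
    omega
  have htail := tail_of (rp A') α β (by omega) (by omega) (4096 * 4096) (by norm_num) hb1 (by
    intro N t y hy hyN
    apply hcnt N t y hy hyN
    intro n hn
    rw [mem_filter, mem_range] at hn
    refine ⟨hn.1, ?_⟩
    have h2 := hle n
    have h3 := hn.2
    unfold rp at h2 h3
    rw [hα, hβ] at h3
    omega)
  refine ⟨A', ?_, ?_, htail, ?_⟩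
  · intro n
    rcases le_or_gt N0 n with h | h
    · obtain ⟨a, ha, b, hb, hab⟩ := hcov n h
      exact ⟨a, Or.inl ha, b, Or.inl hb, hab⟩
    · exact ⟨n, Or.inr h.le, 0, Or.inr (Nat.zero_le _), by simp⟩
  · refine ⟨(α : ℝ) + β * (29 * 17), ?_⟩
    filter_upwards [facBd_bound] with n hn
    obtain ⟨h1, h2⟩ := hn
    set R := Real.log (n : ℝ) / Real.log (Real.log (n : ℝ)) with hR
    have h3 : (rp A' n : ℝ) ≤ (α : ℝ) + β * (29 * (facBd n : ℝ)) := by exact_mod_cast hb1 n
    refine h3.trans ?_
    have hα0 : (0 : ℝ) ≤ α := Nat.cast_nonneg _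
    have hβ0 : (0 : ℝ) ≤ β := Nat.cast_nonneg _
    have h4 : (α : ℝ) ≤ α * R := by nlinarith
    have h5 : (β : ℝ) * (29 * (facBd n : ℝ)) ≤ β * (29 * (17 * R)) := by gcongr
    calc (α : ℝ) + β * (29 * (facBd n : ℝ)) ≤ α * R + β * (29 * (17 * R)) := add_le_add h4 h5
      _ = _ := by ring
  · obtain ⟨c, C, hc, h⟩ := htail
    exact moments_of (rp A') c C hc h

end Pool.Agent.Helper52.Thin
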