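import Pool.Agent.Helper3.ThinMain
import Pool.Agent.Helper52.Thin.ES

set_option autoImplicit false
set_option linter.unusedSectionVars false

namespace Pool.Agent.Helper52.Thin

open Finset Pool.Agent.Helper3.Thin

variable {q : ℕ → ℕ} [hqp : ∀ k, Fact (q k).Prime] {Γ : ∀ k, Finset (ZMod (q k) × ZMod (q k))}

/-- The genuine candidate edges for `n` with offset label `ε` (no truncated subtraction). -/
def Ed (Γ : ∀ k, Finset (ZMod (q k) × ZMod (q k))) {K : ℕ} (k : Fin K) (ε : Lab) (n : ℕ) :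
    Finset ((_ : Fin K) × ℕ) :=
  (edges q Γ k (targ q n ε)).filter (fun e => off (q e.1) ε ≤ n)

/-- There are `t` present edges with pairwise disjoint cells. -/
def Match (Γ : ∀ k, Finset (ZMod (q k) × ZMod (q k))) {K : ℕ} (k : Fin K) (ε : Lab) (t n : ℕ)
    (τ : Om q K) : Prop :=
  ∃ T ⊆ Ed Γ k ε n, T.card = t ∧
    (∀ a ∈ T, ∀ b ∈ T, a ≠ b → Disjoint (cells (lo q) (up q k (targ q n ε)) a)
      (cells (lo q) (up q k (targ q n ε)) b)) ∧
    ∀ a ∈ T, ∀ c, τ c ∈ boxE Γ k (targ q n ε) a c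

/-- There is a present cherry. -/
def Cher (Γ : ∀ k, Finset (ZMod (q k) × ZMod (q k))) {K : ℕ} (k : Fin K) (ε : Lab) (n : ℕ)
    (τ : Om q K) : Prop :=
  ∃ p ∈ cherries q Γ k (targ q n ε), ∀ c, τ c ∈ boxP Γ k (targ q n ε) p c

lemma Match.mono {K : ℕ} {k : Fin K} {ε : Lab} {t s n : ℕ} {τ : Om q K} (hst : s ≤ t)
    (h : Match Γ k ε t n τ) : Match Γ k ε s n τ := by
  obtain ⟨T, h1, h2, h3, h4⟩ := h
  obtain ⟨T', hT', hc⟩ := exists_subset_card_eq (h2 ▸ hst : s ≤ T.card)
  exact ⟨T', hT'.trans h1, hc, fun a ha b hb => h3 a (hT' ha) b (hT' hb),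
    fun a ha => h4 a (hT' ha)⟩

lemma hup_ne (hA : Adm q Γ) {K : ℕ} (k : Fin K) (nn : Fin K → ℕ) :
    ∀ a ∈ edges q Γ k nn, ∀ b ∈ edges q Γ k nn, lo q a = lo q b → a ≠ b →
      up q k nn a ≠ up q k nn b := by
  rintro ⟨j, a⟩ ha ⟨j', a'⟩ hb hlo hne hup
  rw [mem_edges] at ha hb
  have hj : j = j' := congrArg Sigma.fst hlo
  subst hj
  apply hne
  have e1 : dig (q j) a = dig (q j) a' := eq_of_heq (Sigma.mk.inj_iff.1 hlo).2
  have e2 : dig (q k) (nn j - a) = dig (q k) (nn j - a') :=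
    eq_of_heq (Sigma.mk.inj_iff.1 hup).2
  exact congrArg (fun x => (⟨j, x⟩ : (_ : Fin K) × ℕ)) (edge_unique hA ha.1 ha.2 hb.2 e1 e2)

/-- Without cherries and without large matchings there are few present edges. -/
lemma card_lt_of_not (hA : Adm q Γ) {K : ℕ} (k : Fin K) (ε : Lab) (t n : ℕ) (τ : Om q K)
    (hM : ¬ Match Γ k ε t n τ) (hC : ¬ Cher Γ k ε n τ) (X : Finset ((_ : Fin K) × ℕ))
    (hX : X ⊆ Ed Γ k ε n) (hXp : ∀ e ∈ X, ∀ c, τ c ∈ boxE Γ k (targ q n ε) e c)
    (hXi : ∀ e ∈ X, ∀ e' ∈ X, targ q n ε e.1 - e.2 = targ q n ε e'.1 - e'.2 → e = e') :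
    X.card < t := by
  classical
  by_contra hcon
  push Not at hcon
  obtain ⟨T, hT, hTc⟩ := exists_subset_card_eq hcon
  apply hM
  refine ⟨T, hT.trans hX, hTc, ?_, fun a ha => hXp a (hT ha)⟩
  intro a ha b hb hab
  by_contra hnd
  have aX := hT ha
  have bX := hT hb
  have aE : a ∈ edges q Γ k (targ q n ε) := (mem_filter.1 (hX aX)).1
  have bE : b ∈ edges q Γ k (targ q n ε) := (mem_filter.1 (hX bX)).1
  apply hC
  refine ⟨(a, b), ?_, ?_⟩
  · unfold cherries
    rw [mem_filter, mem_product]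
    refine ⟨⟨aE, bE⟩, ?_⟩
    rw [not_disjoint_iff] at hnd
    obtain ⟨c, hc1, hc2⟩ := hnd
    unfold cells at hc1 hc2
    rw [mem_insert, mem_singleton] at hc1 hc2
    have l1 := (mem_edges.1 aE).1
    have l2 := (mem_edges.1 bE).1
    rcases hc1 with hc1 | hc1 <;> rcases hc2 with hc2 | hc2
    · left
      have hlo : lo q a = lo q b := by rw [← hc1, ← hc2]
      exact ⟨hlo, hab, hup_ne hA k _ _ aE _ bE hlo hab⟩
    · exfalso
      exact lo_ne_up (q := q) (k := k) (nn := targ q n ε) (e' := b) l1 (by rw [← hc1, ← hc2])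
    · exfalso
      exact lo_ne_up (q := q) (k := k) (nn := targ q n ε) (e' := a) l2 (by rw [← hc1, ← hc2])
    · right
      have hup : up q k (targ q n ε) a = up q k (targ q n ε) b := by rw [← hc1, ← hc2]
      refine ⟨hup, fun hb' => hab (hXi _ aX _ bX hb'), ?_⟩
      intro hlo
      exact hup_ne hA k _ _ aE _ bE hlo hab hup
  · intro c
    unfold boxP
    rw [mem_inter]
    exact ⟨hXp _ aX c, hXp _ bX c⟩

/-- first moment of matchings -/
lemma match_prob (hA : Adm q Γ) {K : ℕ} (k : Fin K) (ε : Lab) (t n : ℕ)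
    (B : Finset (Om q K)) (hB : ∀ τ ∈ B, Match Γ k ε t n τ) :
    (B.card : ℝ) * (t.factorial : ℝ) ≤ 243 ^ t * (Fintype.card (Om q K) : ℝ) := by
  classical
  set nn := targ q n ε with hnn
  have hboxE : ∀ e ∈ edges q Γ k nn, ∀ c : Cell q K, c ∉ cells (lo q) (up q k nn) e →
      boxE Γ k nn e c = univ := by
    intro e _ c hc
    unfold cells at hc
    rw [mem_insert, mem_singleton, not_or] at hc
    unfold boxE
    rw [boxLo_univ e c hc.1, boxUp_univ k nn e c hc.2, inter_self]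
  refine box_tuples (edges q Γ k nn) (fun e => boxE Γ k nn e) (cells (lo q) (up q k nn))
      (fun e => 3 / (q e.1 : ℝ) * (3 / (q k : ℝ))) 243 hboxE
      (fun e he => dens_boxE hA k nn e (mem_edges.1 he).1) (W1_le hA k nn) t B ?_
  intro τ hτ
  obtain ⟨T, h1, h2, h3, h4⟩ := hB τ hτ
  exact ⟨T, h1.trans (filter_subset _ _), h2, h3, h4⟩

/-- first moment of cherries -/
lemma cher_prob (hA : Adm q Γ) {K : ℕ} (k : Fin K) (ε : Lab) (n : ℕ)
    (B : Finset (Om q K)) (hB : ∀ τ ∈ B, Cher Γ k ε n τ) :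
    (B.card : ℝ) ≤ (100000 / (q k : ℝ)) * (Fintype.card (Om q K) : ℝ) := by
  classical
  set nn := targ q n ε with hnn
  have hboxE : ∀ e ∈ edges q Γ k nn, ∀ c : Cell q K, c ∉ cells (lo q) (up q k nn) e →
      boxE Γ k nn e c = univ := by
    intro e _ c hc
    unfold cells at hc
    rw [mem_insert, mem_singleton, not_or] at hc
    unfold boxE
    rw [boxLo_univ e c hc.1, boxUp_univ k nn e c hc.2, inter_self]
  have := box_tuples (cherries q Γ k nn) (fun p => boxP Γ k nn p) (cells2 (lo q) (up q k nn))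
      (wch q k) (100000 / (q k : ℝ)) (by
        intro p hp c hc
        unfold cherries at hp
        rw [mem_filter, mem_product] at hp
        unfold cells2 at hc
        rw [mem_union, not_or] at hc
        unfold boxP
        rw [hboxE _ hp.1.1 c hc.1, hboxE _ hp.1.2 c hc.2, inter_self])
      (fun p hp => dens_le_wch hA k nn p hp) (W2_le hA k nn) 1
      B (by
        intro τ hτ
        obtain ⟨p, hp, hp2⟩ := hB τ hτ
        refine ⟨{p}, by simpa using hp, by simp, ?_, ?_⟩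
        · intro a ha b hb hab
          rw [mem_singleton] at ha hb
          exact absurd (ha.trans hb.symm) hab
        · intro a ha
          rw [mem_singleton] at ha
          rw [ha]
          exact hp2)
  simpa using this

/-- The finset of base elements. -/
noncomputable def BaseF (Γ : ∀ k, Finset (ZMod (q k) × ZMod (q k))) {K : ℕ} (τ : Om q K) (j : Fin K) :
    Finset ℕ := by
  classical exact (range (q j ^ 4)).filter (fun a => Base Γ τ j a)

lemma mem_BaseF {K : ℕ} {τ : Om q K} {j : Fin K} {a : ℕ} : a ∈ BaseF Γ τ j ↔ Base Γ τ j a := by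
  classical
  unfold BaseF
  rw [mem_filter, mem_range]
  exact ⟨fun h => h.2, fun h => ⟨h.1, h⟩⟩

lemma card_BaseF_low (hA : Adm q Γ) {K : ℕ} (τ : Om q K) (j : Fin K)
    (u : ZMod (q j) × ZMod (q j)) :
    ((BaseF Γ τ j).filter (fun a => dig (q j) a = u)).card ≤ 3 * q j := by
  classical
  have hq0 : 0 < q j := (hqp j).out.pos
  have h3 := (hA.good j).card_le
  rw [ZMod.card] at h3
  refine le_trans ?_ h3
  refine card_le_card_of_injOn (fun a => dig (q j) (a / q j ^ 2) - τ ⟨j, u⟩) ?_ ?_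
  · intro a ha
    rw [mem_coe, mem_filter, mem_BaseF] at ha
    have := ha.1.2.2
    rw [ha.2] at this
    exact this
  · intro a ha b hb hab
    rw [mem_coe, mem_filter, mem_BaseF] at ha hb
    by_contra hne
    have h5 : dig (q j) (a / q j ^ 2) = dig (q j) (b / q j ^ 2) := sub_left_injective hab
    exact high_ne hq0 hne ha.1.1 hb.1.1 (by rw [ha.2, hb.2]) h5

lemma card_BaseF (hA : Adm q Γ) {K : ℕ} (τ : Om q K) (j : Fin K) :
    (BaseF Γ τ j).card ≤ 9 * q j ^ 2 := by
  classical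
  have h1 := card_le_mul_card_image (f := dig (q j)) (BaseF Γ τ j) (3 * q j)
    (fun b _ => card_BaseF_low hA τ j b)
  have h3 := (hA.good j).card_le
  rw [ZMod.card] at h3
  have h2 : (image (dig (q j)) (BaseF Γ τ j)).card ≤ 3 * q j := by
    refine (card_le_card ?_).trans h3
    intro u hu
    rw [mem_image] at hu
    obtain ⟨a, ha, rfl⟩ := hu
    rw [mem_BaseF] at ha
    exact ha.2.1
  calc _ ≤ 3 * q j * _ := h1
    _ ≤ 3 * q j * (3 * q j) := Nat.mul_le_mul_left _ h2
    _ = 9 * q j ^ 2 := by ring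

/-- `n` is affected by the shift of the cell `c`. -/
def Aff (Γ : ∀ k, Finset (ZMod (q k) × ZMod (q k))) {K : ℕ} (k : Fin K) (ε : Lab) (c : Cell q K)
    (τ : Om q K) (n : ℕ) : Prop :=
  ∃ j : Fin K, j < k ∧ ∃ a b, Base Γ τ j a ∧ Base Γ τ k b ∧ a + off (q j) ε + b = n ∧
    (c = ⟨j, dig (q j) a⟩ ∨ c = ⟨k, dig (q k) b⟩)

lemma aff_of_match {K : ℕ} (k : Fin K) (ε : Lab) (t n : ℕ) (τ : Om q K) (c : Cell q K)
    (z : Shift q c) (h : Match Γ k ε t n τ) (h' : ¬ Match Γ k ε t n (Function.update τ c z)) :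
    Aff Γ k ε c τ n := by
  classical
  obtain ⟨T, h1, h2, h3, h4⟩ := h
  have h5 : ∃ a ∈ T, Function.update τ c z c ∉ boxE Γ k (targ q n ε) a c := by
    by_contra hcon
    push Not at hcon
    apply h'
    refine ⟨T, h1, h2, h3, ?_⟩
    intro a ha c'
    by_cases hc : c' = c
    · subst hc
      exact hcon a ha
    · rw [Function.update_of_ne hc]
      exact h4 a ha c'
  obtain ⟨e, heT, hne⟩ := h5
  have heE := h1 heT
  unfold Ed at heE
  rw [mem_filter, mem_edges, mem_edgeFib] at heE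
  obtain ⟨⟨hj, ha1, ha2, ha3, ha4, ha5⟩, hoff⟩ := heE
  have hpres := h4 e heT
  obtain ⟨j, a⟩ := e
  simp only at hj ha1 ha2 ha3 ha4 ha5 hoff
  have hb1 : Base Γ τ j a := by
    refine ⟨ha1, ha4, ?_⟩
    have := hpres ⟨j, dig (q j) a⟩
    unfold boxE boxLo at this
    rw [mem_inter, mem_filter] at this
    exact this.1.2 ⟨rfl, rfl⟩
  have hb2 : Base Γ τ k (targ q n ε j - a) := by
    refine ⟨ha3, ha5, ?_⟩
    have := hpres ⟨k, dig (q k) (targ q n ε j - a)⟩
    unfold boxE boxUp at this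
    rw [mem_inter, mem_filter] at this
    exact this.2.2 ⟨rfl, rfl⟩
  refine ⟨j, hj, a, targ q n ε j - a, hb1, hb2, ?_, ?_⟩
  · unfold targ at ha2 ⊢
    omega
  · by_contra hcon
    rw [not_or] at hcon
    apply hne
    unfold boxE
    rw [boxLo_univ ⟨j, a⟩ c hcon.1, boxUp_univ k _ ⟨j, a⟩ c hcon.2, inter_self]
    exact mem_univ _

lemma sum_sq_le (hA : Adm q Γ) (k : ℕ) : ∑ j ∈ range k, q j ^ 2 ≤ q k ^ 2 := by
  have h1 : ∑ j ∈ range k, q j ^ 2 ≤ (∑ j ∈ range k, q j) ^ 2 := by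
    rw [sq (∑ j ∈ range k, q j), Finset.sum_mul]
    refine sum_le_sum (fun j hj => ?_)
    rw [sq]
    exact Nat.mul_le_mul_left _ (single_le_sum (f := fun j => q j) (fun _ _ => Nat.zero_le _) hj)
  exact h1.trans (Nat.pow_le_pow_left (hA.sum_le k) 2)

lemma sum_cube_le (hA : Adm q Γ) (k : ℕ) : ∑ j ∈ range k, q j ^ 3 ≤ q k ^ 3 := by
  have h1 : ∑ j ∈ range k, q j ^ 3 ≤ (∑ j ∈ range k, q j ^ 2) * (∑ j ∈ range k, q j) := by
    rw [Finset.sum_mul]
    refine sum_le_sum (fun j hj => ?_)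
    rw [pow_succ]
    exact Nat.mul_le_mul_left _ (single_le_sum (f := fun j => q j) (fun _ _ => Nat.zero_le _) hj)
  calc _ ≤ _ := h1
    _ ≤ q k ^ 2 * q k := Nat.mul_le_mul (sum_sq_le hA k) (hA.sum_le k)
    _ = q k ^ 3 := by ring

/-- The bound for the number of affected numbers. -/
noncomputable def Dn (Γ : ∀ k, Finset (ZMod (q k) × ZMod (q k))) {K : ℕ} (k : Fin K) (c : Cell q K) : ℕ := by
  classical exact if c.1 ≤ k ∧ c.2 ∈ Γ c.1 then 27 * q c.1 * q k ^ 2 else 0

lemma card_aff (hA : Adm q Γ) {K : ℕ} (k : Fin K) (ε : Lab) (c : Cell q K) (τ : Om q K)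
    (S : Finset ℕ) (hS : ∀ n ∈ S, Aff Γ k ε c τ n) : S.card ≤ Dn Γ k c := by
  classical
  rcases S.eq_empty_or_nonempty with rfl | ⟨n0, hn0⟩
  · simp
  have hcond : c.1 ≤ k ∧ c.2 ∈ Γ c.1 := by
    obtain ⟨j, hj, a, b, ha, hb, hs, hc⟩ := hS n0 hn0
    rcases hc with hc | hc
    · subst hc
      exact ⟨hj.le, ha.2.1⟩
    · subst hc
      exact ⟨le_rfl, hb.2.1⟩
  unfold Dn
  rw [if_pos hcond]
  obtain ⟨i, u⟩ := c
  obtain ⟨hik, -⟩ := hcond
  simp only at hik
  rcases eq_or_lt_of_le hik with rfl | hlt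
  · -- the cell is a top cell
    have hsub : S ⊆ (univ.filter (fun j : Fin K => j < i)).biUnion (fun j =>
        ((BaseF Γ τ j) ×ˢ ((BaseF Γ τ i).filter (fun b => dig (q i) b = u))).image
          (fun p => p.1 + off (q j) ε + p.2)) := by
      intro n hn
      obtain ⟨j, hj, a, b, ha, hb, hs, hc⟩ := hS n hn
      rw [mem_biUnion]
      refine ⟨j, by rw [mem_filter]; exact ⟨mem_univ _, hj⟩, ?_⟩
      rw [mem_image]
      refine ⟨(a, b), ?_, hs⟩
      rw [mem_product, mem_filter, mem_BaseF, mem_BaseF]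
      refine ⟨ha, hb, ?_⟩
      rcases hc with hc | hc
      · exfalso
        have := congrArg Sigma.fst hc
        simp only at this
        rw [this] at hj
        exact lt_irrefl _ hj
      · exact (eq_of_heq (Sigma.mk.inj_iff.1 hc).2).symm
    refine (card_le_card hsub).trans (card_biUnion_le.trans ?_)
    have hterm : ∀ j ∈ univ.filter (fun j : Fin K => j < i),
        (((BaseF Γ τ j) ×ˢ ((BaseF Γ τ i).filter (fun b => dig (q i) b = u))).image
          (fun p => p.1 + off (q j) ε + p.2)).card ≤ 27 * q i * q j ^ 2 := by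
      intro j _
      refine card_image_le.trans ?_
      rw [card_product]
      calc _ ≤ (9 * q j ^ 2) * (3 * q i) :=
            Nat.mul_le_mul (card_BaseF hA τ j) (card_BaseF_low hA τ i u)
        _ = _ := by ring
    refine (sum_le_sum hterm).trans ?_
    rw [← mul_sum, sum_fin_lt i (fun j => q j ^ 2)]
    exact Nat.mul_le_mul_left _ (sum_sq_le hA i)
  · have hsub : S ⊆ (((BaseF Γ τ i).filter (fun b => dig (q i) b = u)) ×ˢ (BaseF Γ τ k)).image
          (fun p => p.1 + off (q i) ε + p.2) := by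
      intro n hn
      obtain ⟨j, hj, a, b, ha, hb, hs, hc⟩ := hS n hn
      rcases hc with hc | hc
      · have h1 : i = j := congrArg Sigma.fst hc
        subst h1
        have h2 : u = dig (q i) a := eq_of_heq (Sigma.mk.inj_iff.1 hc).2
        rw [mem_image]
        refine ⟨(a, b), ?_, hs⟩
        rw [mem_product, mem_filter, mem_BaseF, mem_BaseF]
        exact ⟨⟨ha, h2.symm⟩, hb⟩
      · exfalso
        have h1 : i = k := congrArg Sigma.fst hc
        rw [h1] at hlt
        exact lt_irrefl _ hlt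
    refine (card_le_card hsub).trans (card_image_le.trans ?_)
    rw [card_product]
    calc _ ≤ (3 * q i) * (9 * q k ^ 2) :=
          Nat.mul_le_mul (card_BaseF_low hA τ i u) (card_BaseF hA τ k)
      _ = _ := by ring

end Pool.Agent.Helper52.Thin
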