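import Pool.Agent.Helper52.Thin.Rep

set_option autoImplicit false
set_option linter.unusedSectionVars false

namespace Pool.Agent.Helper52.Thin

open Finset Filter Pool.Agent.Helper3.Thin

/-- `facBd` is eventually below the fourth root. -/
lemma facBd_small : ∀ᶠ n : ℕ in atTop, (facBd n : ℝ) + 1 ≤ Real.sqrt (Real.sqrt (n : ℝ)) := by
  have t0 : Tendsto (fun n : ℕ => (n : ℝ)) atTop atTop := tendsto_natCast_atTop_atTop
  have t1 : Tendsto (fun n : ℕ => Real.log (n : ℝ)) atTop atTop :=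
    Real.tendsto_log_atTop.comp t0
  have t2 : Tendsto (fun n : ℕ => Real.log (Real.log (n : ℝ))) atTop atTop :=
    Real.tendsto_log_atTop.comp t1
  have o1 := (isLittleO_log_rpow_atTop (show (0 : ℝ) < 1 / 4 by norm_num)).def
    (show (0 : ℝ) < 1 / 34 by norm_num)
  have e1 := t0.eventually o1
  have e2 := t2.eventually (eventually_ge_atTop (1 : ℝ))
  have e3 := t0.eventually (eventually_ge_atTop (16 : ℝ))
  filter_upwards [e1, e2, e3, facBd_bound] with n h1 h2 h3 h4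
  have h5 : Real.sqrt (Real.sqrt (n : ℝ)) = (n : ℝ) ^ (1 / 4 : ℝ) := by
    rw [Real.sqrt_eq_rpow, Real.sqrt_eq_rpow, ← Real.rpow_mul (by linarith)]
    norm_num
  have hlog : 0 ≤ Real.log (n : ℝ) := Real.log_nonneg (by linarith)
  have h6 : Real.log (n : ℝ) ≤ 1 / 34 * (n : ℝ) ^ (1 / 4 : ℝ) := by
    rw [Real.norm_eq_abs, Real.norm_eq_abs, abs_of_nonneg hlog,
      abs_of_nonneg (Real.rpow_nonneg (by linarith) _)] at h1
    exact h1
  have h7 : Real.log (n : ℝ) / Real.log (Real.log (n : ℝ)) ≤ Real.log (n : ℝ) :=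
    div_le_self hlog h2
  have h8 : (2 : ℝ) ≤ Real.sqrt (Real.sqrt (n : ℝ)) := by
    apply Real.le_sqrt_of_sq_le
    apply Real.le_sqrt_of_sq_le
    linarith
  rw [h5] at h8 ⊢
  linarith [h4.1]

lemma exists_scales' (Q : ℕ) : ∃ q : ℕ → ℕ, (∀ k, (q k).Prime) ∧ Q ≤ q 0 ∧
    (∀ k, 2 * q k ≤ q (k + 1)) ∧ (∀ k, q (k + 1) ≤ 4 * q k) := by
  have step : ∀ p : {p : ℕ // p.Prime ∧ Q ≤ p}, ∃ p' : {p : ℕ // p.Prime ∧ Q ≤ p},
      2 * p.1 ≤ p'.1 ∧ p'.1 ≤ 4 * p.1 := by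
    rintro ⟨p, hp, hp'⟩
    obtain ⟨r, hr, h1, h2⟩ := Nat.exists_prime_lt_and_le_two_mul (2 * p) (by
      have := hp.pos
      omega)
    exact ⟨⟨r, hr, by omega⟩, by simp only; omega, by simp only; omega⟩
  choose f hf using step
  obtain ⟨p0, hp0, hp1⟩ := Nat.exists_infinite_primes Q
  set s : ℕ → {p : ℕ // p.Prime ∧ Q ≤ p} :=
    fun n => Nat.rec (motive := fun _ => {p : ℕ // p.Prime ∧ Q ≤ p}) ⟨p0, hp1, hp0⟩
      (fun _ x => f x) n with hs
  refine ⟨fun k => (s k).1, fun k => (s k).2.1, (s 0).2.2, fun k => ?_, fun k => ?_⟩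
  · exact (hf (s k)).1
  · exact (hf (s k)).2

/-- The pairs representing `n`. -/
def Rp (A : Set ℕ) (n : ℕ) : Set (ℕ × ℕ) := {p : ℕ × ℕ | p.1 ∈ A ∧ p.2 ∈ A ∧ p.1 + p.2 = n}

lemma Rp_finite (A : Set ℕ) (n : ℕ) : (Rp A n).Finite := rep_finite A n

theorem exists_pre' : ∃ A : Set ℕ, ∃ N0 : ℕ, (∀ n, N0 ≤ n → ∃ a ∈ A, ∃ b ∈ A, a + b = n) ∧
    (∀ n : ℕ, (Rp A n).ncard ≤ 3 * (4096 * (4096 * (1296 + 58 * facBd n)))) ∧
    ∀ (N t : ℕ) (y : ℝ), 0 ≤ y → (N : ℝ) ≤ y ^ 16 → ∀ B : Finset ℕ,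
      (∀ n ∈ B, n < N ∧ 3 * (4096 * (4096 * (1296 + 2 * t))) < (Rp A n).ncard) →
      (B.card : ℝ) ≤ 4096 * 4096 * (2000 * (N : ℝ) * (243 ^ (t + 1) / ((t + 1).factorial : ℝ)) +
      6 * y ^ 15) := by
  classical
  obtain ⟨Q0, hQ0⟩ := eventually_atTop.1 facBd_small
  obtain ⟨q, hprime, hbig0, hg1, hg2⟩ := exists_scales' (max Q0 (10 ^ 52))
  have hbig : 10 ^ 52 ≤ q 0 := (le_max_right _ _).trans hbig0
  have hqp : ∀ k, Fact (q k).Prime := fun k => ⟨hprime k⟩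
  have hmono : Monotone q := monotone_nat_of_le_succ (fun k => by
    have := hg1 k
    omega)
  have hsmall : ∀ k, (facBd (q k) : ℝ) + 1 ≤ rt q k := by
    intro k
    apply hQ0
    exact (le_max_left _ _).trans (hbig0.trans (hmono (Nat.zero_le k)))
  have hlarge : ∀ k, 16 < q k := by
    intro k
    have h1 := hmono (Nat.zero_le k)
    have h2 : 16 < 10 ^ 52 := by norm_num
    omega
  choose Γ hΓ using fun k => exists_goodSet (q k) (hlarge k)
  have hA : Adm q Γ := ⟨hΓ, hg1, by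
    have h2 : 36 ≤ 10 ^ 52 := by norm_num
    omega⟩
  have hex := fun K => exists_tau' hA hbig (fun k => facBd (q k)) (fun k => facBd_spec (q k))
    hsmall K
  choose τ hτ hτ2 hτ3 using hex
  set U : Ultrafilter ℕ := hyperfilter ℕ with hU
  refine ⟨{a | ∀ᶠ K in (U : Filter ℕ), a ∈ Ak Γ (τ K)}, 4 * q 0 ^ 4, ?_, ?_, ?_⟩
  · intro n hn
    have h1 : ∀ᶠ K in (U : Filter ℕ), ∃ p ∈ ((HasAntidiagonal.antidiagonal n : Finset (ℕ × ℕ)) : Set (ℕ × ℕ)),
        p.1 ∈ Ak Γ (τ K) ∧ p.2 ∈ Ak Γ (τ K) := by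
      have h2 : ∀ᶠ K in (atTop : Filter ℕ), n < K := eventually_gt_atTop n
      have h3 : ∀ᶠ K in (U : Filter ℕ), n < K := Nat.hyperfilter_le_atTop h2
      filter_upwards [h3] with K hK
      obtain ⟨x, hx, y, hy, hxy⟩ := cover_all hA hg2 (τ K) n hn hK
      exact ⟨(x, y), by rw [Finset.mem_coe, HasAntidiagonal.mem_antidiagonal]; exact hxy, hx, hy⟩
    rw [Ultrafilter.eventually_exists_mem_iff (Finset.finite_toSet _)] at h1
    obtain ⟨p, hp, h2⟩ := h1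
    rw [Finset.mem_coe, HasAntidiagonal.mem_antidiagonal] at hp
    exact ⟨p.1, h2.mono (fun K hK => hK.1), p.2, h2.mono (fun K hK => hK.2), hp⟩
  · intro n
    set A : Set ℕ := {a | ∀ᶠ K in (U : Filter ℕ), a ∈ Ak Γ (τ K)} with hAdef
    have hfin := Rp_finite A n
    set S := hfin.toFinset with hS
    have hcard : (Rp A n).ncard = S.card := Set.ncard_eq_toFinset_card _ hfin
    rw [hcard]
    have hall : ∀ᶠ K in (U : Filter ℕ), ∀ p ∈ S, p.1 ∈ Ak Γ (τ K) ∧ p.2 ∈ Ak Γ (τ K) := by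
      rw [Filter.eventually_all_finset]
      intro p hp
      rw [hS, Set.Finite.mem_toFinset] at hp
      exact hp.1.and hp.2.1
    obtain ⟨K, hK⟩ := hall.exists
    apply rep_bound hA (τ K) (fun k => facBd (q k)) (hτ K) n (facBd n)
    · intro k hk
      exact facBd_mono hk
    · intro p hp
      refine ⟨(hK p hp).1, (hK p hp).2, ?_⟩
      rw [hS, Set.Finite.mem_toFinset] at hp
      exact hp.2.2
  · intro N t y hy hyN B hB
    set A : Set ℕ := {a | ∀ᶠ K in (U : Filter ℕ), a ∈ Ak Γ (τ K)} with hAdef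
    have hall : ∀ᶠ K in (U : Filter ℕ), ∀ a ∈ range N, a ∈ A → a ∈ Ak Γ (τ K) := by
      rw [Filter.eventually_all_finset]
      intro a _
      by_cases ha : a ∈ A
      · have ha' : ∀ᶠ K in (U : Filter ℕ), a ∈ Ak Γ (τ K) := ha
        exact ha'.mono (fun K hK _ => hK)
      · exact Eventually.of_forall (fun K h => absurd h ha)
    obtain ⟨K, hK⟩ := hall.exists
    apply count_bound hA (τ K) (hτ2 K) (hτ3 K) N t (fun n => (Rp_finite A n).toFinset) _ B _ y hy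
      hyN
    · intro n hn p hp
      rw [Set.Finite.mem_toFinset] at hp
      obtain ⟨h1, h2, h3⟩ := hp
      exact ⟨hK _ (by rw [mem_range]; omega) h1, hK _ (by rw [mem_range]; omega) h2, h3⟩
    · intro n hn
      obtain ⟨h1, h2⟩ := hB n hn
      refine ⟨h1, ?_⟩
      rw [← Set.ncard_eq_toFinset_card _ (Rp_finite A n)]
      exact h2

end Pool.Agent.Helper52.Thin
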