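import Pool.Agent.Helper52.Thin.Exist

set_option autoImplicit false
set_option linter.unusedSectionVars false

namespace Pool.Agent.Helper52.Thin

open Finset Pool.Agent.Helper3.Thin

variable {q : ℕ → ℕ} [hqp : ∀ k, Fact (q k).Prime] {Γ : ∀ k, Finset (ZMod (q k) × ZMod (q k))}

/-- Number of top elements representing `n` with a smaller scale. -/
lemma cross_or (hA : Adm q Γ) {K : ℕ} (τ : Om q K) (t : ℕ)
    (k : Fin K) (n : ℕ) (ε : Lab) (T : Finset ℕ)
    (hT : ∀ b ∈ T, Base Γ τ k b ∧ ∃ j : Fin K, j < k ∧ ∃ a, Base Γ τ j a ∧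
      a + off (q j) ε + b = n) :
    T.card ≤ t ∨ n ∈ fc Γ k ε (t + 1) τ ∨ n ∈ gc Γ k ε τ := by
  classical
  rcases T.eq_empty_or_nonempty with rfl | hne
  · left
    simp
  have hn : n < 1000 * q k ^ 4 := by
    obtain ⟨b, hb⟩ := hne
    obtain ⟨hb1, j, hjk, a, ha, hs⟩ := hT b hb
    have h1 := hb1.1
    have h2 := ha.1
    have h3 : q j < q k := hA.lt (j := j) (k := k) hjk
    have h4 : q j ^ 4 ≤ q k ^ 4 := Nat.pow_le_pow_left h3.le 4
    have h5 := off_le (q j) (hqp j).out.two_le ε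
    omega
  rw [mem_fc, mem_gc]
  by_contra hcon
  rw [not_or, not_or, not_and, not_and] at hcon
  obtain ⟨hcard, hnM, hnC⟩ := hcon
  apply hcard
  choose hTb j hjk a ha hs using hT
  set e : {b // b ∈ T} → (_ : Fin K) × ℕ := fun b => ⟨j b.1 b.2, a b.1 b.2⟩ with he
  have hsub : ∀ b : {b // b ∈ T}, targ q n ε (e b).1 - (e b).2 = b.1 ∧
      (e b).2 ≤ targ q n ε (e b).1 ∧ off (q (e b).1) ε ≤ n := by
    intro b
    have := hs b.1 b.2
    simp only [he, targ]
    omega
  have hinj : Function.Injective e := by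
    intro b b' h
    have h1 := (hsub b).1
    have h2 := (hsub b').1
    rw [h] at h1
    exact Subtype.ext (h1.symm.trans h2)
  set X := univ.image e with hX
  have hXc : X.card = T.card := by
    rw [hX, card_image_of_injective _ hinj, card_univ, Fintype.card_coe]
  have hmem : ∀ x ∈ X, ∃ b : {b // b ∈ T}, e b = x := by
    intro x hx
    rw [hX, mem_image] at hx
    obtain ⟨b, _, hb⟩ := hx
    exact ⟨b, hb⟩
  have hfine := card_lt_of_not hA k ε (t + 1) n τ (hnM hn) (hnC hn) X (by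
    intro x hx
    obtain ⟨b, rfl⟩ := hmem x hx
    unfold Ed
    rw [mem_filter, mem_edges]
    refine ⟨⟨hjk b.1 b.2, ?_⟩, (hsub b).2.2⟩
    rw [mem_edgeFib, (hsub b).1]
    exact ⟨(ha b.1 b.2).1, (hsub b).2.1, (hTb b.1 b.2).1, (ha b.1 b.2).2.1, (hTb b.1 b.2).2.1⟩)
    (by
      intro x hx c
      obtain ⟨b, rfl⟩ := hmem x hx
      apply present
      · exact ha b.1 b.2
      · rw [(hsub b).1]
        exact hTb b.1 b.2)
    (by
      intro x hx x' hx' h
      obtain ⟨b, rfl⟩ := hmem x hx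
      obtain ⟨b', rfl⟩ := hmem x' hx'
      rw [(hsub b).1, (hsub b').1] at h
      have : b = b' := Subtype.ext h
      rw [this])
  rw [hXc] at hfine
  omega

theorem rep_or (hA : Adm q Γ) {K : ℕ} (τ : Om q K) (t n : ℕ) (S : Finset (ℕ × ℕ))
    (hS : ∀ p ∈ S, p.1 ∈ Ak Γ τ ∧ p.2 ∈ Ak Γ τ ∧ p.1 + p.2 = n) :
    S.card ≤ 3 * (4096 * (4096 * (1296 + 2 * t))) ∨
    ∃ k : Fin K, q k ^ 4 ≤ n ∧ ∃ ε ε' : Lab, off (q k) ε' ≤ n ∧
      (n - off (q k) ε' ∈ fc Γ k ε (t + 1) τ ∨ n - off (q k) ε' ∈ gc Γ k ε τ) := by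
  classical
  by_contra hcon
  rw [not_or] at hcon
  obtain ⟨hbigS, hno⟩ := hcon
  push Not at hno
  apply hbigS
  set R := univ.filter (fun k : Fin K => q k ^ 4 ≤ n ∧ n ≤ 1028 * q k ^ 4) with hR
  -- the pieces
  set P1 : Fin K → Lab → Lab → Finset (ℕ × ℕ) := fun k ε ε' =>
    S.filter (fun p => ∃ a b, Base Γ τ k a ∧ Base Γ τ k b ∧ a + off (q k) ε = p.1 ∧
      b + off (q k) ε' = p.2) with hP1
  set P2 : Fin K → Lab → Lab → Finset (ℕ × ℕ) := fun k ε ε' =>
    S.filter (fun p => ∃ j : Fin K, j < k ∧ ∃ a b, Base Γ τ j a ∧ Base Γ τ k b ∧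
      a + off (q j) ε = p.1 ∧ b + off (q k) ε' = p.2) with hP2
  set P3 : Fin K → Lab → Lab → Finset (ℕ × ℕ) := fun k ε ε' =>
    S.filter (fun p => ∃ j : Fin K, j < k ∧ ∃ a b, Base Γ τ j a ∧ Base Γ τ k b ∧
      a + off (q j) ε = p.2 ∧ b + off (q k) ε' = p.1) with hP3
  have hrel : ∀ j k : Fin K, j ≤ k → ∀ (ε ε' : Lab) (a b : ℕ), Base Γ τ j a → Base Γ τ k b →
      a + off (q j) ε + (b + off (q k) ε') = n → k ∈ R := by
    intro j k hjk ε ε' a b ha hb hs
    rw [hR, mem_filter]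
    have h1 := ha.1
    have h2 := hb.1
    have h3 : q j ≤ q k := by
      rcases eq_or_lt_of_le hjk with h | h
      · rw [h]
      · exact (hA.lt (j := j) (k := k) h).le
    have h4 : q j ^ 4 ≤ q k ^ 4 := Nat.pow_le_pow_left h3 4
    have h5 := off_le (q j) (hqp j).out.two_le ε
    have h6 := off_le (q k) (hqp k).out.two_le ε'
    have h7 := off_ge (q k) ε'
    refine ⟨mem_univ _, ?_, ?_⟩
    · omega
    · omega
  have hcover : S ⊆ R.biUnion (fun k => univ.biUnion (fun ε : Lab => univ.biUnion (fun ε' : Lab =>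
      P1 k ε ε' ∪ (P2 k ε ε' ∪ P3 k ε ε')))) := by
    intro p hp
    obtain ⟨⟨j, ε, a, ha, hpa⟩, ⟨k, ε', b, hb, hpb⟩, hs⟩ := hS p hp
    rw [mem_biUnion]
    rcases lt_trichotomy j k with hjk | hjk | hjk
    · refine ⟨k, hrel j k hjk.le ε ε' a b ha hb (by rw [hpa, hpb, hs]), ?_⟩
      rw [mem_biUnion]
      refine ⟨ε, mem_univ _, ?_⟩
      rw [mem_biUnion]
      refine ⟨ε', mem_univ _, ?_⟩
      rw [mem_union, mem_union]
      right; left
      rw [hP2]
      simp only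
      rw [mem_filter]
      exact ⟨hp, j, hjk, a, b, ha, hb, hpa, hpb⟩
    · subst hjk
      refine ⟨j, hrel j j le_rfl ε ε' a b ha hb (by rw [hpa, hpb, hs]), ?_⟩
      rw [mem_biUnion]
      refine ⟨ε, mem_univ _, ?_⟩
      rw [mem_biUnion]
      refine ⟨ε', mem_univ _, ?_⟩
      rw [mem_union]
      left
      rw [hP1]
      simp only
      rw [mem_filter]
      exact ⟨hp, a, b, ha, hb, hpa, hpb⟩
    · refine ⟨j, hrel k j hjk.le ε' ε b a hb ha (by rw [hpa, hpb]; omega), ?_⟩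
      rw [mem_biUnion]
      refine ⟨ε', mem_univ _, ?_⟩
      rw [mem_biUnion]
      refine ⟨ε, mem_univ _, ?_⟩
      rw [mem_union, mem_union]
      right; right
      rw [hP3]
      simp only
      rw [mem_filter]
      exact ⟨hp, k, hjk, b, a, hb, ha, hpb, hpa⟩
  have hc1 : ∀ k ε ε', (P1 k ε ε').card ≤ 1296 := by
    intro k ε ε'
    have hmem : ∀ p ∈ P1 k ε ε', p.1 + p.2 = n ∧ ∃ a b, Base Γ τ k a ∧ Base Γ τ k b ∧
        a + off (q k) ε = p.1 ∧ b + off (q k) ε' = p.2 := by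
      intro p hp
      rw [hP1] at hp
      simp only at hp
      rw [mem_filter] at hp
      exact ⟨(hS p hp.1).2.2, hp.2⟩
    have hinj : Set.InjOn (fun p : ℕ × ℕ => (p.1 - off (q k) ε, p.2 - off (q k) ε'))
        (P1 k ε ε' : Set (ℕ × ℕ)) := by
      intro p hp p' hp' h
      obtain ⟨_, a, b, _, _, h1, h2⟩ := hmem p hp
      obtain ⟨_, a', b', _, _, h1', h2'⟩ := hmem p' hp'
      simp only [Prod.mk.injEq] at h
      exact Prod.ext (by omega) (by omega)
    rw [← card_image_of_injOn hinj]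
    apply same_scale (hA.good k) (fun u => τ ⟨k, u⟩) (n - off (q k) ε - off (q k) ε')
    · intro p hp
      rw [mem_image] at hp
      obtain ⟨p', hp', rfl⟩ := hp
      obtain ⟨h0, a, b, _, _, h1, h2⟩ := hmem p' hp'
      simp only
      omega
    · intro p hp
      rw [mem_image] at hp
      obtain ⟨p', hp', rfl⟩ := hp
      obtain ⟨h0, a, b, ha, hb, h1, h2⟩ := hmem p' hp'
      simp only
      rw [← h1, Nat.add_sub_cancel]
      exact ha
    · intro p hp
      rw [mem_image] at hp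
      obtain ⟨p', hp', rfl⟩ := hp
      obtain ⟨h0, a, b, ha, hb, h1, h2⟩ := hmem p' hp'
      simp only
      rw [← h2, Nat.add_sub_cancel]
      exact hb
  have hc2 : ∀ k ∈ R, ∀ ε ε', (P2 k ε ε').card ≤ t := by
    intro k hkR ε ε'
    have hmem : ∀ p ∈ P2 k ε ε', p.1 + p.2 = n ∧ ∃ j : Fin K, j < k ∧ ∃ a b, Base Γ τ j a ∧
        Base Γ τ k b ∧ a + off (q j) ε = p.1 ∧ b + off (q k) ε' = p.2 := by
      intro p hp
      rw [hP2] at hp
      simp only at hp
      rw [mem_filter] at hp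
      exact ⟨(hS p hp.1).2.2, hp.2⟩
    rcases (P2 k ε ε').eq_empty_or_nonempty with h0 | ⟨p0, hp0⟩
    · rw [h0]
      simp
    have hoff : off (q k) ε' ≤ n := by
      obtain ⟨h0, j, _, a, b, _, _, h1, h2⟩ := hmem p0 hp0
      omega
    have hinj : Set.InjOn (fun p : ℕ × ℕ => p.2 - off (q k) ε')
        (P2 k ε ε' : Set (ℕ × ℕ)) := by
      intro p hp p' hp' h
      obtain ⟨h0, j, _, a, b, _, _, h1, h2⟩ := hmem p hp
      obtain ⟨h0', j', _, a', b', _, _, h1', h2'⟩ := hmem p' hp'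
      simp only at h
      exact Prod.ext (by omega) (by omega)
    have hno' := hno k (mem_filter.1 hkR).2.1 ε ε' hoff
    rw [← card_image_of_injOn hinj]
    rcases cross_or hA τ t k (n - off (q k) ε') ε
      ((P2 k ε ε').image (fun p : ℕ × ℕ => p.2 - off (q k) ε')) (by
        intro b hb
        rw [mem_image] at hb
        obtain ⟨p, hp, rfl⟩ := hb
        obtain ⟨h0, j, hjk, a, b, ha, hb, h1, h2⟩ := hmem p hp
        have e : p.2 - off (q k) ε' = b := by omega
        rw [e]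
        exact ⟨hb, j, hjk, a, ha, by omega⟩) with h | h | h
    · exact h
    · exact absurd h hno'.1
    · exact absurd h hno'.2
  have hc3 : ∀ k ∈ R, ∀ ε ε', (P3 k ε ε').card ≤ t := by
    intro k hkR ε ε'
    have hmem : ∀ p ∈ P3 k ε ε', p.1 + p.2 = n ∧ ∃ j : Fin K, j < k ∧ ∃ a b, Base Γ τ j a ∧
        Base Γ τ k b ∧ a + off (q j) ε = p.2 ∧ b + off (q k) ε' = p.1 := by
      intro p hp
      rw [hP3] at hp
      simp only at hp
      rw [mem_filter] at hp
      exact ⟨(hS p hp.1).2.2, hp.2⟩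
    rcases (P3 k ε ε').eq_empty_or_nonempty with h0 | ⟨p0, hp0⟩
    · rw [h0]
      simp
    have hoff : off (q k) ε' ≤ n := by
      obtain ⟨h0, j, _, a, b, _, _, h1, h2⟩ := hmem p0 hp0
      omega
    have hinj : Set.InjOn (fun p : ℕ × ℕ => p.1 - off (q k) ε')
        (P3 k ε ε' : Set (ℕ × ℕ)) := by
      intro p hp p' hp' h
      obtain ⟨h0, j, _, a, b, _, _, h1, h2⟩ := hmem p hp
      obtain ⟨h0', j', _, a', b', _, _, h1', h2'⟩ := hmem p' hp'
      simp only at h
      exact Prod.ext (by omega) (by omega)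
    have hno' := hno k (mem_filter.1 hkR).2.1 ε ε' hoff
    rw [← card_image_of_injOn hinj]
    rcases cross_or hA τ t k (n - off (q k) ε') ε
      ((P3 k ε ε').image (fun p : ℕ × ℕ => p.1 - off (q k) ε')) (by
        intro b hb
        rw [mem_image] at hb
        obtain ⟨p, hp, rfl⟩ := hb
        obtain ⟨h0, j, hjk, a, b, ha, hb, h1, h2⟩ := hmem p hp
        have e : p.1 - off (q k) ε' = b := by omega
        rw [e]
        exact ⟨hb, j, hjk, a, ha, by omega⟩) with h | h | h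
    · exact h
    · exact absurd h hno'.1
    · exact absurd h hno'.2
  have hpiece : ∀ k ∈ R, (univ.biUnion (fun ε : Lab => univ.biUnion (fun ε' : Lab =>
      P1 k ε ε' ∪ (P2 k ε ε' ∪ P3 k ε ε')))).card ≤ 4096 * (4096 * (1296 + 2 * t)) := by
    intro k hk
    have h1 : ∀ ε ∈ (univ : Finset Lab), (univ.biUnion (fun ε' : Lab =>
        P1 k ε ε' ∪ (P2 k ε ε' ∪ P3 k ε ε'))).card ≤ 4096 * (1296 + 2 * t) := by
      intro ε _
      have h2 : ∀ ε' ∈ (univ : Finset Lab),
          (P1 k ε ε' ∪ (P2 k ε ε' ∪ P3 k ε ε')).card ≤ 1296 + 2 * t := by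
        intro ε' _
        have g1 := hc1 k ε ε'
        have g2 := hc2 k hk ε ε'
        have g3 := hc3 k hk ε ε'
        have g4 := card_union_le (P1 k ε ε') (P2 k ε ε' ∪ P3 k ε ε')
        have g5 := card_union_le (P2 k ε ε') (P3 k ε ε')
        omega
      have := card_biUnion_le_card_mul univ _ _ h2
      rwa [card_univ, card_Lab] at this
    have := card_biUnion_le_card_mul univ _ _ h1
    rwa [card_univ, card_Lab] at this
  have hR3 := relevant_card hA K n
  calc S.card ≤ _ := card_le_card hcover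
    _ ≤ R.card * (4096 * (4096 * (1296 + 2 * t))) := card_biUnion_le_card_mul R _ _ hpiece
    _ ≤ 3 * (4096 * (4096 * (1296 + 2 * t))) := Nat.mul_le_mul_right _ hR3

/-- geometric growth -/
lemma geo_top (f : ℕ → ℝ) (hf0 : ∀ k, 0 ≤ f k) (hf : ∀ k, 2 * f k ≤ f (k + 1)) (m : ℕ) :
    ∑ k ∈ range (m + 1), f k ≤ 2 * f m := by
  induction m with
  | zero => simp; linarith [hf0 0]
  | succ n ih =>
    rw [sum_range_succ]
    have := hf n
    linarith

lemma sum_top {K : ℕ} (f : ℕ → ℝ) (hf0 : ∀ k, 0 ≤ f k) (hf : ∀ k, 2 * f k ≤ f (k + 1)) (y : ℝ)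
    (hy : 0 ≤ y) (F : Finset (Fin K)) (hF : ∀ k ∈ F, f k ≤ y) :
    ∑ k ∈ F, f k ≤ 2 * y := by
  classical
  rcases F.eq_empty_or_nonempty with rfl | hne
  · simp
    linarith
  · set m := F.max' hne with hm
    have hmF : m ∈ F := max'_mem _ _
    have h1 : ∑ k ∈ F, f k ≤ ∑ k ∈ range ((m : ℕ) + 1), f k := by
      have h2 : ∑ k ∈ F, f k = ∑ k ∈ F.image (fun k : Fin K => (k : ℕ)), f k := by
        rw [sum_image]
        intro a _ b _ h
        exact Fin.ext h
      rw [h2]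
      apply sum_le_sum_of_subset_of_nonneg
      · intro x hx
        rw [mem_image] at hx
        obtain ⟨k, hk, rfl⟩ := hx
        rw [mem_range]
        have : k ≤ m := le_max' F k hk
        exact Nat.lt_succ_of_le this
      · intro _ _ _
        exact hf0 _
    have h3 := geo_top f hf0 hf m
    have h4 := hF m hmF
    linarith

/-- the number of `n < N` with many representations -/
theorem count_bound (hA : Adm q Γ) {K : ℕ} (τ : Om q K)
    (h1 : ∀ k : Fin K, ∀ ε : Lab, ∀ t, ((fc Γ k ε t τ).card : ℝ) ≤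
        1000 * (q k : ℝ) ^ 4 * (243 ^ t / (t.factorial : ℝ)) + 2 * rt q k ^ 15)
    (h2 : ∀ k : Fin K, ∀ ε : Lab, ((gc Γ k ε τ).card : ℝ) ≤ rt q k ^ 15)
    (N t : ℕ) (S : ℕ → Finset (ℕ × ℕ))
    (hS : ∀ n < N, ∀ p ∈ S n, p.1 ∈ Ak Γ τ ∧ p.2 ∈ Ak Γ τ ∧ p.1 + p.2 = n) (B : Finset ℕ)
    (hB : ∀ n ∈ B, n < N ∧ 3 * (4096 * (4096 * (1296 + 2 * t))) < (S n).card)
    (y : ℝ) (hy : 0 ≤ y) (hyN : (N : ℝ) ≤ y ^ 16) :
    (B.card : ℝ) ≤ 4096 * 4096 * (2000 * (N : ℝ) * (243 ^ (t + 1) / ((t + 1).factorial : ℝ)) +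
      6 * y ^ 15) := by
  classical
  set F : Finset (Fin K) := univ.filter (fun k => q k ^ 4 ≤ N) with hF
  have hcover : B ⊆ F.biUnion (fun k => univ.biUnion (fun ε : Lab => univ.biUnion (fun ε' : Lab =>
      (fc Γ k ε (t + 1) τ ∪ gc Γ k ε τ).image (fun m => m + off (q k) ε')))) := by
    intro n hn
    obtain ⟨hnN, hbig⟩ := hB n hn
    rcases rep_or hA τ t n (S n) (hS n hnN) with h | ⟨k, hk, ε, ε', hoff, h⟩
    · omega
    · rw [mem_biUnion]
      refine ⟨k, by rw [hF, mem_filter]; exact ⟨mem_univ _, by omega⟩, ?_⟩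
      rw [mem_biUnion]
      refine ⟨ε, mem_univ _, ?_⟩
      rw [mem_biUnion]
      refine ⟨ε', mem_univ _, ?_⟩
      rw [mem_image]
      refine ⟨n - off (q k) ε', ?_, by omega⟩
      rw [mem_union]
      exact h
  set P : ℝ := 243 ^ (t + 1) / ((t + 1).factorial : ℝ) with hP
  have hP0 : 0 ≤ P := by positivity
  have hterm : ∀ k : Fin K, ((univ.biUnion (fun ε : Lab => univ.biUnion (fun ε' : Lab =>
      (fc Γ k ε (t + 1) τ ∪ gc Γ k ε τ).image (fun m => m + off (q k) ε')))).card : ℝ) ≤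
      4096 * 4096 * (1000 * (q k : ℝ) ^ 4 * P + 3 * rt q k ^ 15) := by
    intro k
    have e1 : (univ.biUnion (fun ε : Lab => univ.biUnion (fun ε' : Lab =>
      (fc Γ k ε (t + 1) τ ∪ gc Γ k ε τ).image (fun m => m + off (q k) ε')))).card ≤
        ∑ ε : Lab, ∑ _ε' : Lab, ((fc Γ k ε (t + 1) τ).card + (gc Γ k ε τ).card) := by
      refine card_biUnion_le.trans (sum_le_sum (fun ε _ => ?_))
      refine card_biUnion_le.trans (sum_le_sum (fun ε' _ => ?_))
      exact card_image_le.trans (card_union_le _ _)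
    have e2 : ((univ.biUnion (fun ε : Lab => univ.biUnion (fun ε' : Lab =>
      (fc Γ k ε (t + 1) τ ∪ gc Γ k ε τ).image (fun m => m + off (q k) ε')))).card : ℝ) ≤
        ∑ ε : Lab, ∑ _ε' : Lab, (((fc Γ k ε (t + 1) τ).card : ℝ) + ((gc Γ k ε τ).card : ℝ)) := by
      exact_mod_cast e1
    refine e2.trans ?_
    calc _ ≤ ∑ _ε : Lab, ∑ _ε' : Lab, (1000 * (q k : ℝ) ^ 4 * P + 3 * rt q k ^ 15) := by
          refine sum_le_sum (fun ε _ => sum_le_sum (fun ε' _ => ?_))
          have := h1 k ε (t + 1)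
          have := h2 k ε
          linarith
      _ = _ := by
        rw [sum_const, sum_const, card_univ, card_Lab, nsmul_eq_mul, nsmul_eq_mul]
        push_cast
        ring
  have hs1 : ∑ k ∈ F, (q k : ℝ) ^ 4 ≤ 2 * (N : ℝ) := by
    apply sum_top (fun k => (q k : ℝ) ^ 4) (fun k => by positivity) _ _ (Nat.cast_nonneg _)
    · intro k hk
      rw [hF, mem_filter] at hk
      exact_mod_cast hk.2
    · intro k
      have h3 : (2 : ℝ) * q k ≤ q (k + 1) := by exact_mod_cast hA.grow k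
      have h4 := qpos (q := q) k
      calc 2 * (q k : ℝ) ^ 4 ≤ (2 * (q k : ℝ)) ^ 4 := by nlinarith [pow_pos h4 4]
        _ ≤ _ := pow_le_pow_left₀ (by positivity) h3 4
  have hs2 : ∑ k ∈ F, rt q k ^ 15 ≤ 2 * y ^ 15 := by
    apply sum_top (fun k => rt q k ^ 15) (fun k => by have := rt_pos (q := q) k; positivity) _ _
      (by positivity)
    · intro k hk
      rw [hF, mem_filter] at hk
      have h3 : rt q k ^ 16 ≤ y ^ 16 := by
        calc rt q k ^ 16 = (rt q k ^ 4) ^ 4 := by ring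
          _ = (q k : ℝ) ^ 4 := by rw [rt_pow]
          _ ≤ (N : ℝ) := by exact_mod_cast hk.2
          _ ≤ _ := hyN
      have h4 : rt q k ≤ y := (pow_le_pow_iff_left₀ (rt_pos _).le hy (by norm_num)).1 h3
      exact pow_le_pow_left₀ (rt_pos _).le h4 15
    · intro k
      have h3 : (2 : ℝ) * q k ≤ q (k + 1) := by exact_mod_cast hA.grow k
      have hr := rt_pos (q := q) k
      have hr' := rt_pos (q := q) (k + 1)
      have h4 : (17 / 15 : ℝ) * rt q k ≤ rt q (k + 1) := by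
        have h5 : ((17 / 15 : ℝ) * rt q k) ^ 4 ≤ rt q (k + 1) ^ 4 := by
          rw [mul_pow, rt_pow, rt_pow]
          have h6 := qpos (q := q) k
          refine le_trans ?_ h3
          apply mul_le_mul_of_nonneg_right _ h6.le
          norm_num
        exact (pow_le_pow_iff_left₀ (by positivity) hr'.le (by norm_num)).1 h5
      calc 2 * rt q k ^ 15 ≤ (17 / 15 : ℝ) ^ 15 * rt q k ^ 15 := by
            apply mul_le_mul_of_nonneg_right _ (by positivity)
            norm_num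
        _ = ((17 / 15 : ℝ) * rt q k) ^ 15 := by ring
        _ ≤ _ := pow_le_pow_left₀ (by positivity) h4 15
  calc (B.card : ℝ) ≤ ((∑ k ∈ F, (univ.biUnion (fun ε : Lab => univ.biUnion (fun ε' : Lab =>
      (fc Γ k ε (t + 1) τ ∪ gc Γ k ε τ).image (fun m => m + off (q k) ε')))).card : ℕ) : ℝ) := by
        exact_mod_cast (card_le_card hcover).trans card_biUnion_le
    _ = ∑ k ∈ F, ((univ.biUnion (fun ε : Lab => univ.biUnion (fun ε' : Lab =>
      (fc Γ k ε (t + 1) τ ∪ gc Γ k ε τ).image (fun m => m + off (q k) ε')))).card : ℝ) := by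
        push_cast
        rfl
    _ ≤ ∑ k ∈ F, 4096 * 4096 * (1000 * (q k : ℝ) ^ 4 * P + 3 * rt q k ^ 15) :=
        sum_le_sum (fun k _ => hterm k)
    _ = 4096 * 4096 * (1000 * P * ∑ k ∈ F, (q k : ℝ) ^ 4 + 3 * ∑ k ∈ F, rt q k ^ 15) := by
        rw [← mul_sum, sum_add_distrib, mul_sum, mul_sum]
        congr 2
        refine Finset.sum_congr rfl (fun k _ => by ring)
    _ ≤ 4096 * 4096 * (1000 * P * (2 * (N : ℝ)) + 3 * (2 * y ^ 15)) := by gcongr
    _ = _ := by ring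

end Pool.Agent.Helper52.Thin
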